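import Pool.Agent.V7H37.SN.Final

/-!
# Separations of classes
-/

set_option autoImplicit false
set_option linter.unusedSectionVars false

namespace Pool.Agent.V7H37.SN

/-- a family of Boolean functions, one for each number of variables -/
abbrev Family : Type := ∀ n : ℕ, (Fin n → Bool) → Bool

/-- polynomial size and depth `O((log n)^a)` -/
def InNC (dec : Prop) (a : ℕ) (f : Family) : Prop :=
  ∃ c, ∀ n, HasCircuit dec (n ^ c + c) (c * (Nat.log 2 n) ^ a + c) (f n)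

/-- layered circuits of polynomial size and width `O((log n)^a)` -/
def InSC (dec : Prop) (a : ℕ) (f : Family) : Prop :=
  ∃ c, ∀ n, ∃ T, HasLayered dec T (n ^ c + c) (c * (Nat.log 2 n) ^ a + c) (f n)

/-- powers grow slower than exponentials -/
lemma eventually_pow_lt (m : ℕ) : ∃ K0, ∀ K ≥ K0, K ^ m < 2 ^ K := by
  have h := tendsto_pow_const_div_const_pow_of_one_lt m (r := (2 : ℝ)) (by norm_num)
  have h1 := h.eventually (gt_mem_nhds (show (0 : ℝ) < 1 by norm_num))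
  rw [Filter.eventually_atTop] at h1
  obtain ⟨K0, hK⟩ := h1
  refine ⟨K0, fun K hK' => ?_⟩
  have h2 := hK K hK'
  rw [div_lt_one (by positivity)] at h2
  exact_mod_cast h2

/-- a polylogarithmic bound is small -/
lemma small (c a : ℕ) : ∃ K0, ∀ K ≥ K0, (c * (8 * K) ^ a + c) ^ 4 ≤ 2 ^ K := by
  obtain ⟨K1, h1⟩ := eventually_pow_lt (4 * (2 * a + 2))
  refine ⟨K1 + c + 9, fun K hK => ?_⟩
  have h2 : (8 * K) ^ a ≤ K ^ (2 * a) := by
    rw [pow_mul]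
    exact Nat.pow_le_pow_left (by nlinarith) a
  have h3 : 1 ≤ K ^ (2 * a) := Nat.one_le_pow _ _ (by omega)
  have h4 : c * (8 * K) ^ a + c ≤ K ^ (2 * a + 2) := by
    calc c * (8 * K) ^ a + c ≤ c * K ^ (2 * a) + c * K ^ (2 * a) :=
          Nat.add_le_add (Nat.mul_le_mul_left _ h2) (Nat.le_mul_of_pos_right _ h3)
      _ = (2 * c) * K ^ (2 * a) := by ring
      _ ≤ (K * K) * K ^ (2 * a) := Nat.mul_le_mul_right _ (by nlinarith)
      _ = K ^ (2 * a + 2) := by ring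
  calc (c * (8 * K) ^ a + c) ^ 4 ≤ (K ^ (2 * a + 2)) ^ 4 := Nat.pow_le_pow_left h4 4
    _ = K ^ (4 * (2 * a + 2)) := by rw [← pow_mul]; congr 1; ring
    _ ≤ 2 ^ K := (h1 K (by omega)).le

lemma size_le (K c : ℕ) : (2 ^ (8 * K)) ^ c + c ≤ 2 ^ (8 * K * c + c) := by
  rw [← pow_mul, pow_add]
  have h1 : 1 ≤ 2 ^ (8 * K * c) := Nat.one_le_two_pow
  have h2 : c + 1 ≤ 2 ^ c := Nat.lt_two_pow_self
  nlinarith

open Classical in
/-- the family of the first separation -/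
noncomputable def famA : Family := fun n =>
  if h : 256 ≤ n ∧ (2 ^ (Nat.log 2 n / 8)) ^ 8 ≤ n then
    (tradeoff n (2 ^ (Nat.log 2 n / 8)) h.1 Nat.one_le_two_pow h.2).choose else fun _ => false

open Classical in
/-- the families of the hierarchy -/
noncomputable def famB (a : ℕ) : Family := fun n =>
  if h : 256 ≤ n ∧ 1 ≤ Nat.log 2 n ^ (a + 1) ∧ (Nat.log 2 n ^ (a + 1)) ^ 8 ≤ n then
    (tradeoff n (Nat.log 2 n ^ (a + 1)) h.1 h.2.1 h.2.2).choose else fun _ => false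

lemma log_pow8 (K : ℕ) : Nat.log 2 (2 ^ (8 * K)) = 8 * K := Nat.log_pow (by norm_num) _

lemma famA_NC : InNC True 2 famA := by
  refine ⟨4, fun n => ?_⟩
  unfold famA
  split_ifs with h
  · obtain ⟨h1, _, _⟩ := (tradeoff n (2 ^ (Nat.log 2 n / 8)) h.1 Nat.one_le_two_pow h.2).choose_spec
    refine h1.mono (by omega) ?_
    rw [Nat.log_pow (by norm_num)]
    have : Nat.log 2 n / 8 + 1 ≤ Nat.log 2 n := by
      have : 8 ≤ Nat.log 2 n := Nat.le_log_of_pow_le (by norm_num) (by norm_num; exact h.1)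
      omega
    nlinarith
  · exact circuit_const.mono (by omega) (by omega)

lemma famA_not_SC (a : ℕ) : ¬ InSC True a famA := by
  rintro ⟨c, hc⟩
  obtain ⟨K0, hK0⟩ := small c a
  obtain ⟨K, hK⟩ : ∃ K, K = K0 + 40 * c + 40 := ⟨_, rfl⟩
  have hn : 256 ≤ 2 ^ (8 * K) := by
    calc 256 = 2 ^ 8 := by norm_num
      _ ≤ _ := Nat.pow_le_pow_right (by norm_num) (by omega)
  have hcond : 256 ≤ 2 ^ (8 * K) ∧ (2 ^ (Nat.log 2 (2 ^ (8 * K)) / 8)) ^ 8 ≤ 2 ^ (8 * K) := by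
    refine ⟨hn, ?_⟩
    rw [log_pow8, Nat.mul_div_cancel_left _ (by norm_num), ← pow_mul, mul_comm K 8]
  obtain ⟨T, hT⟩ := hc (2 ^ (8 * K))
  unfold famA at hT
  rw [dif_pos hcond] at hT
  obtain ⟨_, _, h3⟩ := (tradeoff (2 ^ (8 * K)) (2 ^ (Nat.log 2 (2 ^ (8 * K)) / 8)) hcond.1
    Nat.one_le_two_pow hcond.2).choose_spec
  have h4 := h3 _ _ _ hT
  rw [log_pow8, Nat.mul_div_cancel_left _ (by norm_num)] at h4
  have h5 := hK0 K (by omega)
  have h6 := size_le K c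
  have h7 : (2 ^ K) ^ K ≤ 2 ^ (8 * K * c + c) * (c * (8 * K) ^ a + c) ^ K :=
    h4.trans (Nat.mul_le_mul_right _ h6)
  have h8 : ((2 ^ K) ^ K) ^ 4 ≤ (2 ^ (8 * K * c + c)) ^ 4 * (2 ^ K) ^ K := by
    calc ((2 ^ K) ^ K) ^ 4 ≤ (2 ^ (8 * K * c + c) * (c * (8 * K) ^ a + c) ^ K) ^ 4 :=
          Nat.pow_le_pow_left h7 4
      _ = (2 ^ (8 * K * c + c)) ^ 4 * ((c * (8 * K) ^ a + c) ^ 4) ^ K := by
          rw [mul_pow, ← pow_mul (c * (8 * K) ^ a + c) K 4, ← pow_mul (c * (8 * K) ^ a + c) 4 K,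
            mul_comm K 4]
      _ ≤ _ := Nat.mul_le_mul_left _ (Nat.pow_le_pow_left h5 K)
  rw [← pow_mul, ← pow_mul, ← pow_mul, ← pow_mul, ← pow_add] at h8
  have h9 := (Nat.pow_le_pow_iff_right (by norm_num : 1 < 2)).1 h8
  nlinarith

lemma famB_SC (a : ℕ) : InSC True (a + 2) (famB a) := by
  refine ⟨4, fun n => ?_⟩
  unfold famB
  split_ifs with h
  · obtain ⟨_, ⟨T, h2⟩, _⟩ := (tradeoff n (Nat.log 2 n ^ (a + 1)) h.1 h.2.1 h.2.2).choose_spec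
    refine ⟨T, h2.mono (by omega) ?_⟩
    have : 2 * Nat.log 2 n ^ (a + 1) * Nat.log 2 n = 2 * Nat.log 2 n ^ (a + 2) := by ring
    rw [this]
    omega
  · exact ⟨1, layered_const.mono (by omega) (by omega)⟩

lemma famB_not_SC (a : ℕ) : ¬ InSC True a (famB a) := by
  rintro ⟨c, hc⟩
  obtain ⟨K0, hK0⟩ := small 1 (2 * (a + 1))
  obtain ⟨K, hK⟩ : ∃ K, K = K0 + 2 ^ (9 * c) * (2 * c) + 1 := ⟨_, rfl⟩
  have hn : 256 ≤ 2 ^ (8 * K) := by
    calc 256 = 2 ^ 8 := by norm_num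
      _ ≤ _ := Nat.pow_le_pow_right (by norm_num) (by omega)
  have hcond : 256 ≤ 2 ^ (8 * K) ∧ 1 ≤ Nat.log 2 (2 ^ (8 * K)) ^ (a + 1) ∧
      (Nat.log 2 (2 ^ (8 * K)) ^ (a + 1)) ^ 8 ≤ 2 ^ (8 * K) := by
    rw [log_pow8]
    refine ⟨hn, Nat.one_le_pow _ _ (by omega), ?_⟩
    have h1 := hK0 K (by omega)
    calc ((8 * K) ^ (a + 1)) ^ 8 = ((8 * K) ^ (2 * (a + 1))) ^ 4 := by
          rw [← pow_mul, ← pow_mul]; congr 1; ring
      _ ≤ (1 * (8 * K) ^ (2 * (a + 1)) + 1) ^ 4 := Nat.pow_le_pow_left (by omega) 4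
      _ ≤ 2 ^ K := h1
      _ ≤ _ := Nat.pow_le_pow_right (by norm_num) (by omega)
  obtain ⟨T, hT⟩ := hc (2 ^ (8 * K))
  unfold famB at hT
  rw [dif_pos hcond] at hT
  obtain ⟨_, _, h3⟩ := (tradeoff (2 ^ (8 * K)) (Nat.log 2 (2 ^ (8 * K)) ^ (a + 1)) hcond.1
    hcond.2.1 hcond.2.2).choose_spec
  have h4 := h3 _ _ _ hT
  rw [log_pow8, Nat.mul_div_cancel_left _ (by norm_num)] at h4
  have h6 := size_le K c
  have h7 : ((8 * K) ^ (a + 1)) ^ K ≤ 2 ^ (8 * K * c + c) * (c * (8 * K) ^ a + c) ^ K :=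
    h4.trans (Nat.mul_le_mul_right _ h6)
  have hK1 : 1 ≤ K := by omega
  have h8 : 2 ^ (8 * K * c + c) ≤ (2 ^ (9 * c)) ^ K := by
    rw [← pow_mul]
    apply Nat.pow_le_pow_right (by norm_num)
    nlinarith
  have h9 : c * (8 * K) ^ a + c ≤ 2 * c * (8 * K) ^ a := by
    have : 1 ≤ (8 * K) ^ a := Nat.one_le_pow _ _ (by omega)
    nlinarith
  have h10 : (8 * K) ^ K * ((8 * K) ^ a) ^ K ≤
      (2 ^ (9 * c) * (2 * c)) ^ K * ((8 * K) ^ a) ^ K := by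
    calc (8 * K) ^ K * ((8 * K) ^ a) ^ K = ((8 * K) ^ (a + 1)) ^ K := by
          rw [← mul_pow, ← pow_succ']
      _ ≤ _ := h7
      _ ≤ (2 ^ (9 * c)) ^ K * (2 * c * (8 * K) ^ a) ^ K :=
          Nat.mul_le_mul h8 (Nat.pow_le_pow_left h9 K)
      _ = _ := by rw [← mul_pow, ← mul_pow]; congr 1; ring
  have h11 : (8 * K) ^ K ≤ (2 ^ (9 * c) * (2 * c)) ^ K :=
    Nat.le_of_mul_le_mul_right h10 (by positivity)
  have h12 : 8 * K ≤ 2 ^ (9 * c) * (2 * c) := (Nat.pow_le_pow_iff_left (by omega)).1 h11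
  omega

end Pool.Agent.V7H37.SN
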