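import Mathlib

/-!
# Histories of disjoint classes of edges of a complete binary tree

The nodes of the tree are the numbers `1 ≤ v < M`, the parent of `v` is `v / 2`, and the edge between
`x ≥ 2` and `x / 2` is called `x`.  If classes of edges are created and merged one after the other,
at most two new edges per class and step, then at some time there are many nodes at which some class
ends.
-/

set_option autoImplicit false

namespace Pool.Agent.V7H37.SN

/-- the edge `e` is incident to the node `v` -/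
def Inc (v e : ℕ) : Prop := e = v ∨ e / 2 = v

/-- `v` is a proper descendant of `p`, at most `d` levels below `p` -/
def Desc (p d v : ℕ) : Prop := ∃ j, 1 ≤ j ∧ j ≤ d ∧ v / 2 ^ j = p

/-- a history of disjoint classes of edges: `R t x y` means that at time `t` the edges
`x` and `y` are in the same class -/
structure Hist (M T : ℕ) (R : ℕ → ℕ → ℕ → Prop) : Prop where
  symm : ∀ t x y, R t x y → R t y x
  trans : ∀ t x y z, R t x y → R t y z → R t x z
  mono : ∀ t < T, ∀ x y, 2 ≤ x → x < M → 2 ≤ y → y < M → R t x y → R (t + 1) x y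
  zero : ∀ x, ¬ R 0 x x
  step : ∀ t < T, ∀ x y z, 2 ≤ x → x < M → 2 ≤ y → y < M → 2 ≤ z → z < M →
    ¬ R t x x → ¬ R t y y → ¬ R t z z → x ≠ y → x ≠ z → y ≠ z →
    R (t + 1) x y → R (t + 1) x z → False
  top : ∀ x y, 2 ≤ x → x < M → 2 ≤ y → y < M → R T x y

/-- some class contains one edge at `v` but not another one, both below `p` -/
def Bord (R : ℕ → ℕ → ℕ → Prop) (t p d v : ℕ) : Prop :=
  ∃ e f, Inc v e ∧ Inc v f ∧ Desc p d e ∧ Desc p d f ∧ R t e e ∧ ¬ R t e f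

lemma div_pow_succ (v j : ℕ) : v / 2 ^ (j + 1) = v / 2 ^ j / 2 := by
  rw [pow_succ, Nat.div_div_eq_div_mul]

lemma div_pow_add (v i j : ℕ) : v / 2 ^ (i + j) = v / 2 ^ i / 2 ^ j := by
  rw [pow_add, Nat.div_div_eq_div_mul]

lemma bound {p v d M : ℕ} (h : ∃ j, j ≤ d ∧ v / 2 ^ j = p) (hM : (p + 1) * 2 ^ d ≤ M) : v < M := by
  obtain ⟨j, hj, h⟩ := h
  have h1 : v < (p + 1) * 2 ^ j := by
    have h2 := Nat.lt_mul_div_succ v (b := 2 ^ j) (by positivity)
    rw [h] at h2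
    rw [mul_comm]
    exact h2
  have h3 : 2 ^ j ≤ 2 ^ d := Nat.pow_le_pow_right (by norm_num) hj
  calc v < (p + 1) * 2 ^ j := h1
    _ ≤ (p + 1) * 2 ^ d := Nat.mul_le_mul_left _ h3
    _ ≤ M := hM

lemma Desc.lt {p v d M : ℕ} (h : Desc p d v) (hM : (p + 1) * 2 ^ d ≤ M) : v < M := by
  obtain ⟨j, _, hj, h⟩ := h
  exact bound ⟨j, hj, h⟩ hM

lemma Desc.two_le {p v d : ℕ} (h : Desc p d v) (hp : 1 ≤ p) : 2 ≤ v := by
  obtain ⟨j, hj, _, h⟩ := h
  by_contra hv
  have : v / 2 ^ j = 0 := by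
    apply Nat.div_eq_of_lt
    have : 2 ^ 1 ≤ 2 ^ j := Nat.pow_le_pow_right (by norm_num) hj
    omega
  omega

lemma Hist.le {M T : ℕ} {R : ℕ → ℕ → ℕ → Prop} (H : Hist M T R) {x y : ℕ} (hx : 2 ≤ x) (hxM : x < M)
    (hy : 2 ≤ y) (hyM : y < M) {s t : ℕ} (hst : s ≤ t) (ht : t ≤ T) (h : R s x y) : R t x y := by
  induction t, hst using Nat.le_induction with
  | base => exact h
  | succ n hn ih => exact H.mono n (by omega) x y hx hxM hy hyM (ih (by omega))

lemma not_anc {x A B p a j : ℕ} (hp : 1 ≤ p) (hA : A / 4 = p) (hB : B / 4 = p) (hAB : A ≠ B)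
    (ha : x / 2 ^ a = A) : x / 2 ^ j ≠ B := by
  intro hj
  rcases lt_trichotomy a j with h | h | h
  · obtain ⟨i, rfl⟩ := Nat.exists_eq_add_of_lt h
    have h1 : x / 2 ^ (a + i + 1) = A / 2 ^ (i + 1) := by
      rw [add_assoc, div_pow_add, ha]
    rw [h1, div_pow_succ] at hj
    have : A / 2 ^ i ≤ A := Nat.div_le_self _ _
    omega
  · subst h
    exact hAB (ha.symm.trans hj)
  · obtain ⟨i, rfl⟩ := Nat.exists_eq_add_of_lt h
    have h1 : x / 2 ^ (j + i + 1) = B / 2 ^ (i + 1) := by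
      rw [add_assoc, div_pow_add, hj]
    rw [h1, div_pow_succ] at ha
    have : B / 2 ^ i ≤ B := Nat.div_le_self _ _
    omega

lemma not_anc' {x B j : ℕ} (h : x < B) : x / 2 ^ j ≠ B := by
  have : x / 2 ^ j ≤ x := Nat.div_le_self _ _
  omega

/-- the median argument -/
lemma extra {M T : ℕ} {R : ℕ → ℕ → ℕ → Prop} (H : Hist M T R) {A B C p d tA tB tC ea e f v : ℕ}
    (hp : 1 ≤ p) (hM : (p + 1) * 2 ^ (d + 2) ≤ M) (hA : A / 4 = p) (hB : B / 4 = p) (hC : C / 4 = p)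
    (hAB : A ≠ B) (hCB : C ≠ B) (hAt : tA ≤ tB) (hBt : tB ≤ tC) (hCt : tC ≤ T)
    (hea : Desc A d ea) (hRa : R tA ea ea) (hve : Inc v e) (hvf : Inc v f)
    (he : Desc C d e) (hf : Desc C d f) (hRe : ¬ R tC e f) :
    ∃ v, (∃ j, v / 2 ^ j = p) ∧ (∀ j, v / 2 ^ j ≠ B) ∧ Bord R tB p (d + 2) v := by
  by_contra hcon
  push Not at hcon
  have NB : ∀ v, (∃ j, v / 2 ^ j = p) → (∀ j, v / 2 ^ j ≠ B) → ∀ e f, Inc v e → Inc v f →
      Desc p (d + 2) e → Desc p (d + 2) f → R tB e e → R tB e f := by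
    intro v h1 h2 e f h3 h4 h5 h6 h7
    by_contra h8
    exact hcon v h1 h2 ⟨e, f, h3, h4, h5, h6, h7, h8⟩
  -- a chain
  have two : ∀ x a D : ℕ, x / 2 ^ a = D → D / 4 = p → x / 2 ^ (a + 2) = p := by
    intro x a D h1 h2
    rw [div_pow_add, h1]
    exact h2
  have chain : ∀ x a D : ℕ, x / 2 ^ a = D → D / 4 = p → D ≠ B → a ≤ d → 1 ≤ a → ∀ i ≤ a,
      ∀ u w : ℕ, (u = x / 2 ^ i ∧ w = x / 2 ^ (i + 1)) ∨ (w = x / 2 ^ i ∧ u = x / 2 ^ (i + 1)) →
      R tB u u → R tB u w := by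
    intro x a D hx hD hDB had ha i hi u w huw
    have hmem : ∀ m ≤ a + 1, Desc p (d + 2) (x / 2 ^ m) := by
      intro m hm
      refine ⟨a + 2 - m, by omega, by omega, ?_⟩
      rw [← div_pow_add, show m + (a + 2 - m) = a + 2 by omega]
      exact two x a D hx hD
    have hnode : ∃ j, x / 2 ^ (i + 1) / 2 ^ j = p := by
      refine ⟨a + 1 - i, ?_⟩
      rw [← div_pow_add, show i + 1 + (a + 1 - i) = a + 2 by omega]
      exact two x a D hx hD
    have hnot : ∀ j, x / 2 ^ (i + 1) / 2 ^ j ≠ B := by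
      intro j
      by_cases hia : i < a
      · apply not_anc (a := a - (i + 1)) hp hD hB hDB
        rw [← div_pow_add, show i + 1 + (a - (i + 1)) = a by omega]
        exact hx
      · have hia' : i = a := by omega
        subst hia'
        apply not_anc'
        rw [div_pow_succ, hx]
        omega
    rcases huw with ⟨rfl, rfl⟩ | ⟨rfl, rfl⟩
    · exact NB _ hnode hnot _ _ (Or.inr (div_pow_succ x i).symm) (Or.inl rfl) (hmem i (by omega))
        (hmem (i + 1) (by omega))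
    · exact NB _ hnode hnot _ _ (Or.inl rfl) (Or.inr (div_pow_succ x i).symm)
        (hmem (i + 1) (by omega)) (hmem i (by omega))
  obtain ⟨a, ha1, had, haA⟩ := hea
  obtain ⟨c, hc1, hcd, hcC⟩ := he
  have hM' : ∀ D : ℕ, D / 4 = p → (D + 1) * 2 ^ d ≤ M := by
    intro D hD
    have : D + 1 ≤ (p + 1) * 4 := by omega
    calc (D + 1) * 2 ^ d ≤ (p + 1) * 4 * 2 ^ d := Nat.mul_le_mul_right _ this
      _ = (p + 1) * 2 ^ (d + 2) := by rw [pow_add]; ring
      _ ≤ M := hM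
  have hea2 : Desc A d ea := ⟨a, ha1, had, haA⟩
  have he2 : Desc C d e := ⟨c, hc1, hcd, hcC⟩
  have hA1 : 1 ≤ A := by omega
  have hC1 : 1 ≤ C := by omega
  have r0 : R tB ea ea := H.le (hea2.two_le hA1) (hea2.lt (hM' A hA)) (hea2.two_le hA1)
    (hea2.lt (hM' A hA)) hAt (by omega) hRa
  -- up
  have up : ∀ i ≤ a + 1, R tB ea (ea / 2 ^ i) := by
    intro i
    induction i with
    | zero => intro _; simpa using r0
    | succ i ih =>
      intro hi
      have h1 := ih (by omega)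
      have h2 : R tB (ea / 2 ^ i) (ea / 2 ^ i) := H.trans _ _ _ _ (H.symm _ _ _ h1) h1
      have h3 := chain ea a A haA hA hAB had ha1 i (by omega) _ _ (Or.inl ⟨rfl, rfl⟩) h2
      exact H.trans _ _ _ _ h1 h3
  have hupA := up (a + 1) le_rfl
  rw [div_pow_succ, haA] at hupA
  have hA2 : R tB (A / 2) (A / 2) := H.trans _ _ _ _ (H.symm _ _ _ hupA) hupA
  have hAC : R tB (A / 2) (C / 2) := by
    refine NB p ⟨0, by simp⟩ (fun j => not_anc' (by omega)) (A / 2) (C / 2) (Or.inr (by omega))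
      (Or.inr (by omega)) ⟨1, le_rfl, by omega, ?_⟩ ⟨1, le_rfl, by omega, ?_⟩ hA2
    · rw [pow_one]; omega
    · rw [pow_one]; omega
  have hC2 : R tB (C / 2) (C / 2) := H.trans _ _ _ _ (H.symm _ _ _ hAC) hAC
  -- down
  have down : ∀ i ≤ c + 1, R tB (C / 2) (e / 2 ^ (c + 1 - i)) := by
    intro i
    induction i with
    | zero =>
      intro _
      rw [Nat.sub_zero, div_pow_succ, hcC]
      exact hC2
    | succ i ih =>
      intro hi
      have h1 := ih (by omega)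
      obtain ⟨m, hm⟩ : ∃ m, c + 1 - (i + 1) = m := ⟨_, rfl⟩
      rw [hm]
      rw [show c + 1 - i = m + 1 by omega] at h1
      have h2 : R tB (e / 2 ^ (m + 1)) (e / 2 ^ (m + 1)) := H.trans _ _ _ _ (H.symm _ _ _ h1) h1
      have h3 := chain e c C hcC hC hCB hcd hc1 m (by omega) _ _ (Or.inr ⟨rfl, rfl⟩) h2
      exact H.trans _ _ _ _ h1 h3
  have hd := down (c + 1) le_rfl
  rw [Nat.sub_self, pow_zero, Nat.div_one] at hd
  have hee : R tB e e := H.trans _ _ _ _ (H.symm _ _ _ hd) hd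
  have hlift : ∀ x, Desc C d x → Desc p (d + 2) x := by
    rintro x ⟨j, h1, h2, h3⟩
    exact ⟨j + 2, by omega, by omega, two x j C h3 hC⟩
  have hvC : ∃ j, v / 2 ^ j = C := by
    rcases hve with rfl | rfl
    · exact ⟨c, hcC⟩
    · refine ⟨c - 1, ?_⟩
      rw [← hcC]
      conv_rhs => rw [show c = 1 + (c - 1) by omega, div_pow_add, pow_one]
  obtain ⟨j, hj⟩ := hvC
  have hef : R tB e f := NB v ⟨j + 2, two v j C hj hC⟩ (fun i => not_anc hp hC hB hCB hj) e f hve hvf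
    (hlift e he2) (hlift f hf) hee
  exact hRe (H.le (he2.two_le hC1) (he2.lt (hM' C hC)) (hf.two_le hC1) (hf.lt (hM' C hC)) hBt hCt hef)

lemma base {M T : ℕ} {R : ℕ → ℕ → ℕ → Prop} (H : Hist M T R) {p : ℕ} (hp : 1 ≤ p)
    (hM : (p + 1) * 2 ^ 2 ≤ M) : ∃ t ≤ T, ∃ v, (∃ j, v / 2 ^ j = p) ∧ Bord R t p 2 v := by
  classical
  have d1 : Desc p 2 (2 * p) := ⟨1, by omega, by omega, by rw [pow_one]; omega⟩
  have d2 : Desc p 2 (2 * p + 1) := ⟨1, by omega, by omega, by rw [pow_one]; omega⟩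
  have d3 : Desc p 2 (4 * p) := ⟨2, by omega, by omega, by norm_num⟩
  have hex : ∃ t, R t (2 * p) (2 * p) ∨ R t (2 * p + 1) (2 * p + 1) ∨ R t (4 * p) (4 * p) :=
    ⟨T, Or.inl (H.top _ _ (d1.two_le hp) (d1.lt hM) (d1.two_le hp) (d1.lt hM))⟩
  have hle : Nat.find hex ≤ T := Nat.find_min' hex
    (Or.inl (H.top _ _ (d1.two_le hp) (d1.lt hM) (d1.two_le hp) (d1.lt hM)))
  have hne : Nat.find hex ≠ 0 := by
    intro h0
    have := Nat.find_spec hex
    rw [h0] at this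
    rcases this with h | h | h
    · exact H.zero _ h
    · exact H.zero _ h
    · exact H.zero _ h
  obtain ⟨t, ht⟩ := Nat.exists_eq_succ_of_ne_zero hne
  have hspec := Nat.find_spec hex
  have hmin : ∀ m < Nat.find hex, _ := fun m hm => Nat.find_min hex hm
  have hn := hmin t (by omega)
  push Not at hn
  rw [ht] at hspec hle
  refine ⟨t + 1, hle, ?_⟩
  have hst := H.step t (by omega) (2 * p) (2 * p + 1) (4 * p) (d1.two_le hp) (d1.lt hM)
    (d2.two_le hp) (d2.lt hM) (d3.two_le hp) (d3.lt hM) hn.1 hn.2.1 hn.2.2 (by omega) (by omega)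
    (by omega)
  have n1 : ∃ j, p / 2 ^ j = p := ⟨0, by simp⟩
  have n2 : ∃ j, (2 * p) / 2 ^ j = p := ⟨1, by rw [pow_one]; omega⟩
  by_cases h1 : R (t + 1) (2 * p) (2 * p)
  · by_cases h2 : R (t + 1) (2 * p) (2 * p + 1)
    · have h3 : ¬ R (t + 1) (2 * p) (4 * p) := fun h => hst h2 h
      exact ⟨2 * p, n2, 2 * p, 4 * p, Or.inl rfl, Or.inr (by omega), d1, d3, h1, h3⟩
    · exact ⟨p, n1, 2 * p, 2 * p + 1, Or.inr (by omega), Or.inr (by omega), d1, d2, h1, h2⟩
  · rcases hspec with h | h | h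
    · exact absurd h h1
    · refine ⟨p, n1, 2 * p + 1, 2 * p, Or.inr (by omega), Or.inr (by omega), d2, d1, h, ?_⟩
      intro h'
      exact h1 (H.trans _ _ _ _ (H.symm _ _ _ h') h')
    · refine ⟨2 * p, n2, 4 * p, 2 * p, Or.inr (by omega), Or.inl rfl, d3, d1, h, ?_⟩
      intro h'
      exact h1 (H.trans _ _ _ _ (H.symm _ _ _ h') h')

/-- **Many border nodes at some time.** -/
theorem many {M T : ℕ} {R : ℕ → ℕ → ℕ → Prop} (H : Hist M T R) (k : ℕ) : ∀ p : ℕ, 1 ≤ p →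
    (p + 1) * 2 ^ (2 * k + 2) ≤ M → ∃ t ≤ T, ∃ S : Finset ℕ, S.card = k + 1 ∧
      ∀ v ∈ S, (∃ j, v / 2 ^ j = p) ∧ Bord R t p (2 * k + 2) v := by
  classical
  induction k with
  | zero =>
    intro p hp hM
    obtain ⟨t, ht, v, hv, hb⟩ := base H hp hM
    exact ⟨t, ht, {v}, by simp, by simpa using ⟨hv, hb⟩⟩
  | succ k ih =>
    intro p hp hM
    have hM' : ∀ D : ℕ, D / 4 = p → (D + 1) * 2 ^ (2 * k + 2) ≤ M := by
      intro D hD
      have : D + 1 ≤ (p + 1) * 4 := by omega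
      calc (D + 1) * 2 ^ (2 * k + 2) ≤ (p + 1) * 4 * 2 ^ (2 * k + 2) := Nat.mul_le_mul_right _ this
        _ = (p + 1) * 2 ^ (2 * (k + 1) + 2) := by
          rw [show 2 * (k + 1) + 2 = (2 * k + 2) + 2 by ring, pow_add _ (2 * k + 2)]; ring
        _ ≤ M := hM
    have main : ∀ A B C : ℕ, A / 4 = p → B / 4 = p → C / 4 = p → A ≠ B → C ≠ B →
        ∀ tA tB tC : ℕ, ∀ SA SB SC : Finset ℕ, tA ≤ tB → tB ≤ tC → tC ≤ T →
        SA.card = k + 1 → SB.card = k + 1 → SC.card = k + 1 →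
        (∀ v ∈ SA, (∃ j, v / 2 ^ j = A) ∧ Bord R tA A (2 * k + 2) v) →
        (∀ v ∈ SB, (∃ j, v / 2 ^ j = B) ∧ Bord R tB B (2 * k + 2) v) →
        (∀ v ∈ SC, (∃ j, v / 2 ^ j = C) ∧ Bord R tC C (2 * k + 2) v) →
        ∃ t ≤ T, ∃ S : Finset ℕ, S.card = k + 1 + 1 ∧
          ∀ v ∈ S, (∃ j, v / 2 ^ j = p) ∧ Bord R t p (2 * (k + 1) + 2) v := by
      intro A B C hA hB hC hAB hCB tA tB tC SA SB SC h1 h2 h3 cA cB cC bA bB bC
      obtain ⟨vA, hvA⟩ : SA.Nonempty := Finset.card_pos.1 (by omega)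
      obtain ⟨vC, hvC⟩ : SC.Nonempty := Finset.card_pos.1 (by omega)
      obtain ⟨_, ea, _, _, _, hea, _, hRa, _⟩ := bA vA hvA
      obtain ⟨_, e, f, hve, hvf, he, hf, _, hRe⟩ := bC vC hvC
      obtain ⟨v, hv1, hv2, hv3⟩ := extra H hp (d := 2 * k + 2)
        (by rw [show 2 * k + 2 + 2 = 2 * (k + 1) + 2 by ring]; exact hM) hA hB hC hAB hCB h1 h2 h3
        hea hRa hve hvf he hf hRe
      have hvS : v ∉ SB := by
        intro h
        obtain ⟨⟨j, hj⟩, _⟩ := bB v h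
        exact hv2 j hj
      refine ⟨tB, by omega, insert v SB, by rw [Finset.card_insert_of_notMem hvS, cB], ?_⟩
      intro u hu
      rw [Finset.mem_insert] at hu
      rcases hu with rfl | hu
      · exact ⟨hv1, hv3⟩
      · obtain ⟨⟨j, hj⟩, e, f, g1, g2, g3, g4, g5, g6⟩ := bB u hu
        have hlift : ∀ x, Desc B (2 * k + 2) x → Desc p (2 * (k + 1) + 2) x := by
          rintro x ⟨j, h1, h2, h3⟩
          refine ⟨j + 2, by omega, by omega, ?_⟩
          rw [div_pow_add, h3]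
          exact hB
        refine ⟨⟨j + 2, ?_⟩, e, f, g1, g2, hlift e g3, hlift f g4, g5, g6⟩
        rw [div_pow_add, hj]
        exact hB
    have hg : ∀ i < 4, (4 * p + i) / 4 = p := by intro i hi; omega
    obtain ⟨t0, ht0, S0, c0, b0⟩ := ih (4 * p + 0) (by omega) (hM' _ (hg 0 (by omega)))
    obtain ⟨t1, ht1, S1, c1, b1⟩ := ih (4 * p + 1) (by omega) (hM' _ (hg 1 (by omega)))
    obtain ⟨t2, ht2, S2, c2, b2⟩ := ih (4 * p + 2) (by omega) (hM' _ (hg 2 (by omega)))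
    have g0 := hg 0 (by omega)
    have g1 := hg 1 (by omega)
    have g2 := hg 2 (by omega)
    rcases le_total t0 t1 with h01 | h01
    · rcases le_total t1 t2 with h12 | h12
      · exact main _ _ _ g0 g1 g2 (by omega) (by omega) t0 t1 t2 S0 S1 S2 h01 h12 ht2 c0 c1 c2 b0 b1 b2
      · rcases le_total t0 t2 with h02 | h02
        · exact main _ _ _ g0 g2 g1 (by omega) (by omega) t0 t2 t1 S0 S2 S1 h02 h12 ht1 c0 c2 c1
            b0 b2 b1
        · exact main _ _ _ g2 g0 g1 (by omega) (by omega) t2 t0 t1 S2 S0 S1 h02 h01 ht1 c2 c0 c1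
            b2 b0 b1
    · rcases le_total t0 t2 with h02 | h02
      · exact main _ _ _ g1 g0 g2 (by omega) (by omega) t1 t0 t2 S1 S0 S2 h01 h02 ht2 c1 c0 c2
          b1 b0 b2
      · rcases le_total t1 t2 with h12 | h12
        · exact main _ _ _ g1 g2 g0 (by omega) (by omega) t1 t2 t0 S1 S2 S0 h12 h02 ht0 c1 c2 c0
            b1 b2 b0
        · exact main _ _ _ g2 g1 g0 (by omega) (by omega) t2 t1 t0 S2 S1 S0 h12 h01 ht0 c2 c1 c0
            b2 b1 b0

end Pool.Agent.V7H37.SN
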