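import Mathlib

/-!
# Circuits: definitions

`V` is the set of the input variables.  A gate is recorded together with the set of the variables
which occur in the circuit below it.
-/

set_option autoImplicit false

namespace Pool.Agent.V7H37.SN

variable {V : Type} [DecidableEq V]

/-- A gate (or an input): the Boolean function it computes, and the set of the variables which occur
in the circuit below it. -/
abbrev Node (V : Type) : Type := ((V → Bool) → Bool) × Finset V

/-- a constant -/
def cst (b : Bool) : Node V := (fun _ => b, ∅)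

/-- the literal `v` -/
def lit (v : V) : Node V := (fun y => y v, {v})

/-- the literal `¬ v` -/
def nlit (v : V) : Node V := (fun y => !(y v), {v})

/-- literals and constants -/
def IsInput (a : Node V) : Prop := (∃ b, a = cst b) ∨ ∃ v, a = lit v ∨ a = nlit v

/-- an OR gate -/
def gor (a b : Node V) : Node V := (fun y => a.1 y || b.1 y, a.2 ∪ b.2)

/-- an AND gate -/
def gand (a b : Node V) : Node V := (fun y => a.1 y && b.1 y, a.2 ∪ b.2)

/-- a NOT gate -/
def gnot (a : Node V) : Node V := (fun y => !(a.1 y), a.2)

/-- `g` is an OR, AND or NOT gate, with arguments having the property `P`.  If `dec` is true, the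
gate has to be decomposable: NOT gates are not allowed (negations occur only at the inputs), and no
variable may occur below both arguments of an AND gate. -/
def IsGate (dec : Prop) (P : Node V → Prop) (g : Node V) : Prop :=
  ∃ a b, P a ∧ P b ∧ (g = gor a b ∨ (g = gand a b ∧ (dec → Disjoint a.2 b.2)) ∨
    (g = gnot a ∧ ¬ dec))

/-- `f` is computed by a layered circuit with `T` layers, of size at most `s` and width at most `w`:
the arguments of the gates in a layer are inputs or gates of the previous layer. -/
def HasLayered (dec : Prop) (T s w : ℕ) (f : (V → Bool) → Bool) : Prop :=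
  ∃ L : ℕ → Finset (Node V), L 0 = ∅ ∧ (∀ t, 1 ≤ t → t ≤ T → (L t).Nonempty ∧ (L t).card ≤ w) ∧
    ∑ t ∈ Finset.Icc 1 T, (L t).card ≤ s ∧
    (∀ t < T, ∀ g ∈ L (t + 1), IsGate dec (fun a => a ∈ L t ∨ IsInput a) g) ∧
    ∃ D, (f, D) ∈ L T

/-- `f` is computed by a circuit of size at most `s` and depth at most `d`; `U` is the set of the gates and
`G i` is the set of the gates of depth `i`. -/
def HasCircuit (dec : Prop) (s d : ℕ) (f : (V → Bool) → Bool) : Prop :=
  ∃ (G : ℕ → Finset (Node V)) (U : Finset (Node V)), G 0 = ∅ ∧
    (∀ i, ∀ g ∈ G (i + 1), IsGate dec (fun a => (∃ j ≤ i, a ∈ G j) ∨ IsInput a) g) ∧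
    (∀ i ≤ d, G i ⊆ U) ∧ U.card ≤ s ∧ ∃ i ≤ d, ∃ D, (f, D) ∈ G i

end Pool.Agent.V7H37.SN
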