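import Pool.Agent.V7H37.SN.Tree

/-!
# Layered circuits of small width for the tree function
-/

set_option autoImplicit false
set_option linter.unusedSectionVars false

namespace Pool.Agent.V7H37.SN

variable {V : Type} [DecidableEq V]

/-- the node is a gate with arguments in the layer `K` -/
def OK (K : Finset (Node V)) (g : Node V) : Prop := IsGate True (fun a => a ∈ K ∨ IsInput a) g

/-- from the layer `K` to the layer `K'` in `n` steps with width at most `w` -/
def Reach (w : ℕ) : ℕ → Finset (Node V) → Finset (Node V) → Prop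
  | 0, K, K' => K = K'
  | n + 1, K, K' => ∃ K1 : Finset (Node V), K1.card ≤ w ∧ K1.Nonempty ∧ (∀ g ∈ K1, OK K g) ∧
      Reach w n K1 K'

lemma OK.mono {K K' : Finset (Node V)} (h : K ⊆ K') {g : Node V} (hg : OK K g) : OK K' g := by
  obtain ⟨a, b, ha, hb, h'⟩ := hg
  exact ⟨a, b, ha.imp (fun x => h x) id, hb.imp (fun x => h x) id, h'⟩

lemma OK.copy {K : Finset (Node V)} {g : Node V} (hg : g ∈ K) : OK K g := by
  refine ⟨g, cst true, Or.inl hg, Or.inr (Or.inl ⟨true, rfl⟩), Or.inr (Or.inl ⟨?_, fun _ => ?_⟩)⟩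
  · refine Prod.ext ?_ ?_
    · funext y; simp [gand, cst]
    · simp [gand, cst]
  · simp [cst]

lemma OK.cst (K : Finset (Node V)) (b : Bool) : OK K (cst b) := by
  refine ⟨SN.cst b, SN.cst b, Or.inr (Or.inl ⟨b, rfl⟩), Or.inr (Or.inl ⟨b, rfl⟩), Or.inl ?_⟩
  refine Prod.ext ?_ ?_
  · funext y; simp [gor, SN.cst]
  · simp [gor, SN.cst]

lemma Reach.one {w : ℕ} {K K' : Finset (Node V)} (h1 : K'.card ≤ w) (h2 : K'.Nonempty)
    (h3 : ∀ g ∈ K', OK K g) : Reach w 1 K K' := ⟨K', h1, h2, h3, rfl⟩

lemma Reach.trans {w : ℕ} {n : ℕ} : ∀ {K K1 K2 : Finset (Node V)} {m : ℕ}, Reach w n K K1 →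
    Reach w m K1 K2 → Reach w (n + m) K K2 := by
  induction n with
  | zero =>
    intro K K1 K2 m h1 h2
    have h1 : K = K1 := h1
    subst h1
    rwa [Nat.zero_add]
  | succ n ih =>
    intro K K1 K2 m h1 h2
    obtain ⟨K', a, b, c, d⟩ := h1
    rw [show n + 1 + m = (n + m) + 1 by omega]
    exact ⟨K', a, b, c, ih d h2⟩

lemma Reach.mono {w w' : ℕ} (hw : w ≤ w') {n : ℕ} : ∀ {K K' : Finset (Node V)}, Reach w n K K' →
    Reach w' n K K' := by
  induction n with
  | zero => intro K K' h; exact h
  | succ n ih =>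
    intro K K' h
    obtain ⟨K1, a, b, c, d⟩ := h
    exact ⟨K1, a.trans hw, b, c, ih d⟩

open Classical in
lemma Reach.frame {w : ℕ} {n : ℕ} (Z : Finset (Node V)) {z : ℕ} (hZ : Z.card ≤ z) :
    ∀ {K K' : Finset (Node V)}, Reach w n K K' → Reach (w + z) n (K ∪ Z) (K' ∪ Z) := by
  induction n with
  | zero =>
    intro K K' h
    have h : K = K' := h
    subst h
    rfl
  | succ n ih =>
    intro K K' h
    obtain ⟨K1, a, b, c, d⟩ := h
    refine ⟨K1 ∪ Z, ?_, b.mono Finset.subset_union_left, ?_, ih d⟩
    · exact (Finset.card_union_le _ _).trans (Nat.add_le_add a hZ)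
    · intro g hg
      rw [Finset.mem_union] at hg
      rcases hg with hg | hg
      · exact (c g hg).mono Finset.subset_union_left
      · exact OK.copy (Finset.mem_union_right _ hg)

lemma Reach.layers {w : ℕ} {n : ℕ} : ∀ {K K' : Finset (Node V)}, Reach w n K K' →
    ∃ L : ℕ → Finset (Node V), L 0 = K ∧ L n = K' ∧
      (∀ t, 1 ≤ t → t ≤ n → (L t).Nonempty ∧ (L t).card ≤ w) ∧
      ∀ t < n, ∀ g ∈ L (t + 1), OK (L t) g := by
  induction n with
  | zero =>
    intro K K' h
    exact ⟨fun _ => K, rfl, h, fun t h1 h2 => by omega, fun t h => by omega⟩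
  | succ n ih =>
    intro K K' h
    obtain ⟨K1, a, b, c, d⟩ := h
    obtain ⟨L, e1, e2, e3, e4⟩ := ih d
    refine ⟨fun t => if t = 0 then K else L (t - 1), by simp, by simpa using e2, ?_, ?_⟩
    · intro t h1 h2
      have h0 : t ≠ 0 := by omega
      simp only [h0, if_false]
      by_cases ht : t = 1
      · subst ht
        rw [Nat.sub_self, e1]
        exact ⟨b, a⟩
      · exact e3 (t - 1) (by omega) (by omega)
    · intro t ht g hg
      have h0 : t + 1 ≠ 0 := by omega
      simp only [h0, if_false, Nat.add_sub_cancel] at hg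
      by_cases ht0 : t = 0
      · subst ht0
        rw [e1] at hg
        simp only [if_true]
        exact c g hg
      · simp only [ht0, if_false]
        have := e4 (t - 1) (by omega) g (by rwa [Nat.sub_add_cancel (by omega)])
        exact this

section

variable (vr : ℕ → ℕ → ℕ → V) (q : ℕ)

open Classical in
/-- the nodes `Qn j u b`, `b < q` -/
noncomputable def Qset (j u : ℕ) : Finset (Node V) := (Finset.range q).image (Qn vr q j u)

open Classical in
/-- the sums over `b < n` -/
noncomputable def Acc (j u n : ℕ) : Finset (Node V) :=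
  (Finset.range q).image (fun a => orN (Pn vr q j u a) (Finset.range n))

variable {vr q} {h : ℕ}

lemma card_Qset (j u : ℕ) : (Qset vr q j u).card ≤ q := by
  classical
  exact Finset.card_image_le.trans (by simp)

lemma card_Acc (j u n : ℕ) : (Acc vr q j u n).card ≤ q := by
  classical
  exact Finset.card_image_le.trans (by simp)

open Classical in
lemma reach_acc (hv : VarInj vr (2 ^ (h + 1)) q) (hq : 1 ≤ q) {j u : ℕ} (hu : 1 ≤ u)
    (hM : (u + 1) * 2 ^ j ≤ 2 ^ (h + 1)) : Reach (3 * q) (2 * q + 2) (Qset vr q j u)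
      (Acc vr q j u q) := by
  have hne : (Qset vr q j u).Nonempty := ⟨Qn vr q j u 0, Finset.mem_image.2 ⟨0, by simp; omega, rfl⟩⟩
  have hneA : ∀ n, (Acc vr q j u n).Nonempty := fun n =>
    ⟨_, Finset.mem_image.2 ⟨0, by simp; omega, rfl⟩⟩
  have c1 := card_Qset (vr := vr) (q := q) j u
  have start : Reach (3 * q) 1 (Qset vr q j u) (Qset vr q j u ∪ Acc vr q j u 0) := by
    apply Reach.one
    · have := card_Acc (vr := vr) (q := q) j u 0
      exact (Finset.card_union_le _ _).trans (by omega)
    · exact hne.mono Finset.subset_union_left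
    · intro g hg
      rw [Finset.mem_union] at hg
      rcases hg with hg | hg
      · exact OK.copy hg
      · simp only [Acc, Finset.mem_image, Finset.range_zero, orN_empty] at hg
        obtain ⟨a, _, rfl⟩ := hg
        exact OK.cst _ _
  have stp : ∀ n < q, Reach (3 * q) 2 (Qset vr q j u ∪ Acc vr q j u n)
      (Qset vr q j u ∪ Acc vr q j u (n + 1)) := by
    intro n hn
    have c2 := card_Acc (vr := vr) (q := q) j u n
    have c3 := card_Acc (vr := vr) (q := q) j u (n + 1)
    set Pr : Finset (Node V) := (Finset.range q).image (fun a => Pn vr q j u a n) with hPr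
    have c4 : Pr.card ≤ q := Finset.card_image_le.trans (by simp)
    have r1 : Reach (3 * q) 1 (Qset vr q j u ∪ Acc vr q j u n)
        (Qset vr q j u ∪ Acc vr q j u n ∪ Pr) := by
      apply Reach.one
      · have := Finset.card_union_le (Qset vr q j u ∪ Acc vr q j u n) Pr
        have := Finset.card_union_le (Qset vr q j u) (Acc vr q j u n)
        omega
      · exact (hne.mono Finset.subset_union_left).mono Finset.subset_union_left
      · intro g hg
        rw [Finset.mem_union] at hg
        rcases hg with hg | hg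
        · exact OK.copy hg
        · rw [hPr, Finset.mem_image] at hg
          obtain ⟨a, ha, rfl⟩ := hg
          rw [Finset.mem_range] at ha
          refine ⟨lit (vr u n a), Qn vr q j u n, Or.inr (Or.inr ⟨_, Or.inl rfl⟩), Or.inl ?_,
            Or.inr (Or.inl ⟨rfl, fun _ => disj_lit hv hu ha hn hM⟩)⟩
          exact Finset.mem_union_left _ (Finset.mem_image.2 ⟨n, Finset.mem_range.2 hn, rfl⟩)
    have r2 : Reach (3 * q) 1 (Qset vr q j u ∪ Acc vr q j u n ∪ Pr)
        (Qset vr q j u ∪ Acc vr q j u (n + 1)) := by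
      apply Reach.one
      · have := Finset.card_union_le (Qset vr q j u) (Acc vr q j u (n + 1))
        omega
      · exact hne.mono Finset.subset_union_left
      · intro g hg
        rw [Finset.mem_union] at hg
        rcases hg with hg | hg
        · exact OK.copy (Finset.mem_union_left _ (Finset.mem_union_left _ hg))
        · simp only [Acc, Finset.mem_image] at hg
          obtain ⟨a, ha, rfl⟩ := hg
          have e : Finset.range (n + 1) = Finset.range n ∪ {n} := by
            ext x; simp only [Finset.mem_range, Finset.mem_union, Finset.mem_singleton]; omega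
          rw [e, orN_union, orN_singleton]
          refine ⟨_, _, Or.inl ?_, Or.inl ?_, Or.inl rfl⟩
          · exact Finset.mem_union_left _ (Finset.mem_union_right _ (Finset.mem_image.2 ⟨a, ha, rfl⟩))
          · exact Finset.mem_union_right _ (by rw [hPr]; exact Finset.mem_image.2 ⟨a, ha, rfl⟩)
    exact r1.trans r2
  have all : ∀ n ≤ q, Reach (3 * q) (2 * n) (Qset vr q j u ∪ Acc vr q j u 0)
      (Qset vr q j u ∪ Acc vr q j u n) := by
    intro n
    induction n with
    | zero => intro _; rfl
    | succ n ih =>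
      intro hn
      exact (ih (by omega)).trans (stp n (by omega))
  have fin : Reach (3 * q) 1 (Qset vr q j u ∪ Acc vr q j u q) (Acc vr q j u q) := by
    apply Reach.one
    · have := card_Acc (vr := vr) (q := q) j u q
      omega
    · exact hneA q
    · intro g hg
      exact OK.copy (Finset.mem_union_right _ hg)
  have := (start.trans (all q le_rfl)).trans fin
  rwa [show 1 + 2 * q + 1 = 2 * q + 2 by ring] at this

/-- the number of steps -/
def stepsN (q : ℕ) : ℕ → ℕ
  | 0 => 1
  | j + 1 => 2 * stepsN q j + 4 * q + 5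

lemma stepsN_le (q j : ℕ) : stepsN q j + (4 * q + 5) ≤ 2 ^ j * (4 * q + 6) := by
  induction j with
  | zero => simp [stepsN]; omega
  | succ j ih =>
    rw [stepsN, pow_succ]
    nlinarith

open Classical in
lemma reach_Q (hv : VarInj vr (2 ^ (h + 1)) q) (hq : 1 ≤ q) {j : ℕ} : ∀ {p : ℕ}, 1 ≤ p →
    (p + 1) * 2 ^ j ≤ 2 ^ (h + 1) → Reach ((j + 4) * q) (stepsN q j) ∅ (Qset vr q j p) := by
  induction j with
  | zero =>
    intro p hp hM
    apply Reach.one
    · have := card_Qset (vr := vr) (q := q) 0 p
      omega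
    · exact ⟨Qn vr q 0 p 0, Finset.mem_image.2 ⟨0, by simp; omega, rfl⟩⟩
    · intro g hg
      simp only [Qset, Finset.mem_image] at hg
      obtain ⟨a, _, rfl⟩ := hg
      exact OK.cst _ true
  | succ j ih =>
    intro p hp hM
    have hM' : ∀ u, u / 2 = p → (u + 1) * 2 ^ j ≤ 2 ^ (h + 1) := by
      intro u hu
      have h1 : u + 1 ≤ (p + 1) * 2 := by omega
      calc (u + 1) * 2 ^ j ≤ (p + 1) * 2 * 2 ^ j := Nat.mul_le_mul_right _ h1
        _ = (p + 1) * 2 ^ (j + 1) := by rw [pow_succ]; ring
        _ ≤ _ := hM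
    have hM0 := hM' (2 * p) (by omega)
    have hM1 := hM' (2 * p + 1) (by omega)
    set Z := Acc vr q j (2 * p) q with hZ
    have cZ : Z.card ≤ q := card_Acc _ _ _
    have w0 : (j + 4) * q ≤ (j + 1 + 4) * q := Nat.mul_le_mul_right _ (by omega)
    have w1 : 3 * q ≤ (j + 1 + 4) * q := Nat.mul_le_mul_right _ (by omega)
    have w2 : (j + 4) * q + q ≤ (j + 1 + 4) * q := by
      have : (j + 1 + 4) * q = (j + 4) * q + q := by ring
      omega
    have w3 : 3 * q + q ≤ (j + 1 + 4) * q := by
      have : 3 * q + q = 4 * q := by ring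
      rw [this]
      exact Nat.mul_le_mul_right _ (by omega)
    have r1 := (ih (p := 2 * p) (by omega) hM0).mono w0
    have r2 := (reach_acc hv hq (j := j) (u := 2 * p) (by omega) hM0).mono w1
    have r3 := ((ih (p := 2 * p + 1) (by omega) hM1).frame Z cZ).mono w2
    have r4 := ((reach_acc hv hq (j := j) (u := 2 * p + 1) (by omega) hM1).frame Z cZ).mono w3
    rw [Finset.empty_union] at r3
    have r5 : Reach ((j + 1 + 4) * q) 1 (Acc vr q j (2 * p + 1) q ∪ Z) (Qset vr q (j + 1) p) := by
      apply Reach.one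
      · have := card_Qset (vr := vr) (q := q) (j + 1) p
        have : 1 * q ≤ (j + 1 + 4) * q := Nat.mul_le_mul_right _ (by omega)
        omega
      · exact ⟨_, Finset.mem_image.2 ⟨0, by simp; omega, rfl⟩⟩
      · intro g hg
        simp only [Qset, Finset.mem_image] at hg
        obtain ⟨a, ha, rfl⟩ := hg
        have ha' := Finset.mem_range.1 ha
        rw [Qn_succ]
        refine ⟨_, _, Or.inl ?_, Or.inl ?_, Or.inr (Or.inl ⟨rfl, fun _ =>
          disj_sub hv hp ha' hM (fun b hb => Finset.mem_range.1 hb)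
            (fun b hb => Finset.mem_range.1 hb)⟩)⟩
        · exact Finset.mem_union_right _ (Finset.mem_image.2 ⟨a, ha, rfl⟩)
        · exact Finset.mem_union_left _ (Finset.mem_image.2 ⟨a, ha, rfl⟩)
    have := (((r1.trans r2).trans r3).trans r4).trans r5
    rwa [show stepsN q j + (2 * q + 2) + stepsN q j + (2 * q + 2) + 1 = stepsN q (j + 1) by
      rw [stepsN]; ring] at this

open Classical in
lemma reach_root (hv : VarInj vr (2 ^ (h + 1)) q) (hq : 1 ≤ q) :
    Reach ((h + 4) * q) (stepsN q h + (q + 1)) ∅ (Qset vr q h 1 ∪ {root vr q h}) := by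
  have r1 := reach_Q hv hq (j := h) (p := 1) le_rfl (by rw [pow_succ]; omega)
  have hne : (Qset vr q h 1).Nonempty := ⟨Qn vr q h 1 0, Finset.mem_image.2 ⟨0, by simp; omega, rfl⟩⟩
  have c1 := card_Qset (vr := vr) (q := q) h 1
  have w1 : q + 1 ≤ (h + 4) * q := by
    have : 4 * q ≤ (h + 4) * q := Nat.mul_le_mul_right _ (by omega)
    omega
  have cc : ∀ g : Node V, (Qset vr q h 1 ∪ {g}).card ≤ (h + 4) * q := by
    intro g
    refine (Finset.card_union_le _ _).trans ?_
    rw [Finset.card_singleton]
    omega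
  have start : Reach ((h + 4) * q) 1 (Qset vr q h 1) (Qset vr q h 1 ∪
      {orN (Qn vr q h 1) (Finset.range 0)}) := by
    apply Reach.one (cc _) (hne.mono Finset.subset_union_left)
    intro g hg
    rw [Finset.mem_union, Finset.mem_singleton] at hg
    rcases hg with hg | rfl
    · exact OK.copy hg
    · rw [Finset.range_zero, orN_empty]
      exact OK.cst _ _
  have all : ∀ n ≤ q, Reach ((h + 4) * q) n (Qset vr q h 1 ∪ {orN (Qn vr q h 1) (Finset.range 0)})
      (Qset vr q h 1 ∪ {orN (Qn vr q h 1) (Finset.range n)}) := by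
    intro n
    induction n with
    | zero => intro _; rfl
    | succ n ih =>
      intro hn
      refine (ih (by omega)).trans (Reach.one (cc _) (hne.mono Finset.subset_union_left) ?_)
      intro g hg
      rw [Finset.mem_union, Finset.mem_singleton] at hg
      rcases hg with hg | rfl
      · exact OK.copy (Finset.mem_union_left _ hg)
      · have e : Finset.range (n + 1) = Finset.range n ∪ {n} := by
          ext x; simp only [Finset.mem_range, Finset.mem_union, Finset.mem_singleton]; omega
        rw [e, orN_union, orN_singleton]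
        refine ⟨_, _, Or.inl ?_, Or.inl ?_, Or.inl rfl⟩
        · exact Finset.mem_union_right _ (Finset.mem_singleton_self _)
        · exact Finset.mem_union_left _ (Finset.mem_image.2 ⟨n, Finset.mem_range.2 (by omega), rfl⟩)
  have := (r1.trans start).trans (all q le_rfl)
  rw [show stepsN q h + 1 + q = stepsN q h + (q + 1) by ring] at this
  exact this

/-- **A layered circuit of small width.** -/
theorem upper_width (hv : VarInj vr (2 ^ (h + 1)) q) (hq : 1 ≤ q) :
    ∃ T ≤ 2 ^ h * (4 * q + 6), HasLayered True T (2 ^ h * (4 * q + 6) * ((h + 4) * q))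
      ((h + 4) * q) (root vr q h).1 := by
  classical
  obtain ⟨L, h0, hT, h1, h2⟩ := (reach_root hv hq).layers
  have hle : stepsN q h + (q + 1) ≤ 2 ^ h * (4 * q + 6) := by
    have := stepsN_le q h
    omega
  refine ⟨_, hle, L, h0, h1, ?_, h2, (root vr q h).2, ?_⟩
  · calc ∑ t ∈ Finset.Icc 1 (stepsN q h + (q + 1)), (L t).card
        ≤ ∑ t ∈ Finset.Icc 1 (stepsN q h + (q + 1)), (h + 4) * q := by
          apply Finset.sum_le_sum
          intro t ht
          rw [Finset.mem_Icc] at ht
          exact (h1 t ht.1 ht.2).2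
      _ = (stepsN q h + (q + 1)) * ((h + 4) * q) := by
          rw [Finset.sum_const, Nat.card_Icc, smul_eq_mul]
          congr 1
      _ ≤ _ := Nat.mul_le_mul_right _ hle
  · rw [hT]
    exact Finset.mem_union_right _ (Finset.mem_singleton_self _)

end

end Pool.Agent.V7H37.SN
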