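import Pool.Agent.V7H37.SN.UpperD
import Pool.Agent.V7H37.SN.UpperW

/-!
# Separations
-/

set_option autoImplicit false
set_option linter.unusedSectionVars false

namespace Pool.Agent.V7H37.SN

section basic

variable {V : Type} [DecidableEq V]

lemma HasCircuit.mono {dec : Prop} {s s' d d' : ℕ} {f : (V → Bool) → Bool} (h : HasCircuit dec s d f)
    (hs : s ≤ s') (hd : d ≤ d') : HasCircuit dec s' d' f := by
  classical
  obtain ⟨G, U, h0, h1, h2, h3, i, hi, D, hD⟩ := h
  refine ⟨fun j => if j ≤ d then G j else ∅, U, by simp [h0], ?_, ?_, h3.trans hs, i, hi.trans hd, D,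
    ?_⟩
  · intro j g hg
    by_cases hj : j + 1 ≤ d
    · simp only [hj, if_true] at hg
      obtain ⟨a, b, ha, hb, hh⟩ := h1 j g hg
      have key : ∀ a : Node V, ((∃ m ≤ j, a ∈ G m) ∨ IsInput a) →
          ((∃ m ≤ j, a ∈ (if m ≤ d then G m else ∅)) ∨ IsInput a) := by
        rintro a (⟨m, hm, h⟩ | h)
        · exact Or.inl ⟨m, hm, by rw [if_pos (by omega)]; exact h⟩
        · exact Or.inr h
      exact ⟨a, b, key a ha, key b hb, hh⟩
    · simp [hj] at hg
  · intro j _
    by_cases hj : j ≤ d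
    · simp only [hj, if_true]; exact h2 j hj
    · simp [hj]
  · simp only [hi, if_true]; exact hD

lemma HasLayered.mono {dec : Prop} {T s s' w w' : ℕ} {f : (V → Bool) → Bool}
    (h : HasLayered dec T s w f) (hs : s ≤ s') (hw : w ≤ w') : HasLayered dec T s' w' f := by
  obtain ⟨L, h0, h1, h2, h3, h4⟩ := h
  exact ⟨L, h0, fun t a b => ⟨(h1 t a b).1, (h1 t a b).2.trans hw⟩, h2.trans hs, h3, h4⟩

lemma IsGate.general {dec : Prop} {P : Node V → Prop} {g : Node V} (h : IsGate True P g) :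
    IsGate dec P g := by
  obtain ⟨a, b, ha, hb, hh⟩ := h
  refine ⟨a, b, ha, hb, ?_⟩
  rcases hh with h | ⟨h, h'⟩ | ⟨_, h'⟩
  · exact Or.inl h
  · exact Or.inr (Or.inl ⟨h, fun _ => h' trivial⟩)
  · exact absurd trivial h'

lemma HasCircuit.general {dec : Prop} {s d : ℕ} {f : (V → Bool) → Bool} (h : HasCircuit True s d f) :
    HasCircuit dec s d f := by
  obtain ⟨G, U, h0, h1, h2⟩ := h
  exact ⟨G, U, h0, fun i g hg => (h1 i g hg).general, h2⟩

lemma HasLayered.general {dec : Prop} {T s w : ℕ} {f : (V → Bool) → Bool}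
    (h : HasLayered True T s w f) : HasLayered dec T s w f := by
  obtain ⟨L, h0, h1, h2, h3, h4⟩ := h
  exact ⟨L, h0, h1, h2, fun t ht g hg => (h3 t ht g hg).general, h4⟩

/-- a constant function -/
lemma circuit_const : HasCircuit True 1 1 (fun _ : V → Bool => false) := by
  refine ⟨fun i => if i = 1 then {cst false} else ∅, {cst false}, by simp, ?_, ?_, by simp, 1, le_rfl,
    ∅, by simp [cst]⟩
  · intro i g hg
    by_cases hi : i + 1 = 1
    · simp only [hi, if_true, Finset.mem_singleton] at hg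
      subst hg
      obtain ⟨a, b, ha, hb, hh⟩ := OK.cst (∅ : Finset (Node V)) false
      have key : ∀ a : Node V, (a ∈ (∅ : Finset (Node V)) ∨ IsInput a) → ((∃ j ≤ i, a ∈
          (if j = 1 then ({cst false} : Finset (Node V)) else ∅)) ∨ IsInput a) := by
        rintro a (h | h)
        · simp at h
        · exact Or.inr h
      exact ⟨a, b, key a ha, key b hb, hh⟩
    · have hi0 : i ≠ 0 := by omega
      simp [hi0] at hg
  · intro i _
    by_cases hi : i = 1
    · simp [hi]
    · simp [hi]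

lemma layered_const : HasLayered True 1 1 1 (fun _ : V → Bool => false) := by
  refine ⟨fun i => if i = 1 then {cst false} else ∅, by simp, ?_, by simp, ?_, ∅, by simp [cst]⟩
  · intro t h1 h2
    obtain rfl : t = 1 := by omega
    simp
  · intro t ht g hg
    obtain rfl : t = 0 := by omega
    simp only [zero_add, if_true, Finset.mem_singleton] at hg
    subst hg
    have := OK.cst (∅ : Finset (Node V)) false
    simpa [OK] using this

end basic

/-- the coding of the variables -/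
def code (n : ℕ) (hn : 0 < n) (q x a b : ℕ) : Fin n := ⟨((x * q + a) * q + b) % n, Nat.mod_lt _ hn⟩

lemma code_inj {n M q : ℕ} (hn : 0 < n) (h : M * q * q ≤ n) : VarInj (code n hn q) M q := by
  intro x a b x' a' b' hx ha hb hx' ha' hb' he
  have key : ∀ x a b, x < M → a < q → b < q → (x * q + a) * q + b < n := by
    intro x a b hx ha hb
    have h1 : x * q + a + 1 ≤ M * q := by nlinarith
    nlinarith
  have he' : ((x * q + a) * q + b) % n = ((x' * q + a') * q + b') % n := Fin.mk.inj_iff.1 he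
  rw [Nat.mod_eq_of_lt (key x a b hx ha hb), Nat.mod_eq_of_lt (key x' a' b' hx' ha' hb')] at he'
  have hq : 0 < q := by omega
  have e1 : b = b' := by
    have := congrArg (· % q) he'
    simpa [Nat.mul_add_mod', Nat.mod_eq_of_lt hb, Nat.mod_eq_of_lt hb'] using this
  subst e1
  have e2 : x * q + a = x' * q + a' := Nat.eq_of_mul_eq_mul_right hq (by omega)
  have e3 : a = a' := by
    have := congrArg (· % q) e2
    simpa [Nat.mul_add_mod', Nat.mod_eq_of_lt ha, Nat.mod_eq_of_lt ha'] using this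
  subst e3
  exact ⟨Nat.eq_of_mul_eq_mul_right hq (by omega), rfl, rfl⟩

open Classical in
/-- **The trade-off, for all numbers of variables.** -/
theorem tradeoff (n W : ℕ) (hn : 256 ≤ n) (hW : 1 ≤ W) (hWn : W ^ 8 ≤ n) :
    ∃ f : (Fin n → Bool) → Bool,
      HasCircuit True (n ^ 4) (Nat.log 2 n * (Nat.log 2 W + 1)) f ∧
      (∃ T, HasLayered True T (n ^ 4) (2 * W * Nat.log 2 n) f) ∧
      ∀ T s w, HasLayered True T s w f → W ^ (Nat.log 2 n / 8) ≤ s * w ^ (Nat.log 2 n / 8) := by
  obtain ⟨K, hK⟩ : ∃ K, Nat.log 2 n / 8 = K := ⟨_, rfl⟩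
  obtain ⟨ln, hln⟩ : ∃ ln, Nat.log 2 n = ln := ⟨_, rfl⟩
  obtain ⟨lw, hlw⟩ : ∃ lw, Nat.log 2 W = lw := ⟨_, rfl⟩
  have hln8 : 8 ≤ ln := by
    rw [← hln]
    exact Nat.le_log_of_pow_le (by norm_num) (by norm_num; exact hn)
  have hpow : 2 ^ ln ≤ n := by rw [← hln]; exact Nat.pow_log_le_self 2 (by omega)
  rw [hln] at hK ⊢
  rw [hK, hlw]
  have hK1 : 1 ≤ K := by omega
  have hK8 : 8 * K ≤ ln := by omega
  have hq1 : 2 ^ lw ≤ W := by rw [← hlw]; exact Nat.pow_log_le_self 2 (by omega)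
  have hq2 : W < 2 ^ (lw + 1) := by rw [← hlw]; exact Nat.lt_pow_succ_log_self (by norm_num) W
  obtain ⟨q, hq⟩ : ∃ q, 2 ^ (lw + 1) = q := ⟨_, rfl⟩
  have hqW : q ≤ 2 * W := by rw [← hq, pow_succ]; omega
  have hWq : W ≤ q := by omega
  have hq2' : 2 ≤ q := by rw [← hq, pow_succ]; have : 1 ≤ 2 ^ lw := Nat.one_le_two_pow; omega
  obtain ⟨M, hM⟩ : ∃ M, 2 ^ (2 * K + 1) = M := ⟨_, rfl⟩
  have hMqq : M * q * q ≤ n := by
    have h1 : M ^ 4 ≤ 16 * n := by
      rw [← hM, ← pow_mul]
      calc 2 ^ ((2 * K + 1) * 4) = 16 * 2 ^ (8 * K) := by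
            rw [show (2 * K + 1) * 4 = 8 * K + 4 by ring, pow_add]; ring
        _ ≤ 16 * 2 ^ ln := Nat.mul_le_mul_left _ (Nat.pow_le_pow_right (by norm_num) hK8)
        _ ≤ 16 * n := Nat.mul_le_mul_left _ hpow
    have h2 : q ^ 8 ≤ 256 * n := by
      calc q ^ 8 ≤ (2 * W) ^ 8 := Nat.pow_le_pow_left hqW 8
        _ = 256 * W ^ 8 := by ring
        _ ≤ 256 * n := Nat.mul_le_mul_left _ hWn
    have h3 : (M * q * q) ^ 4 ≤ n ^ 4 := by
      calc (M * q * q) ^ 4 = M ^ 4 * q ^ 8 := by ring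
        _ ≤ (16 * n) * (256 * n) := Nat.mul_le_mul h1 h2
        _ = 4096 * n ^ 2 := by ring
        _ ≤ n ^ 2 * n ^ 2 := Nat.mul_le_mul_right _ (by nlinarith)
        _ = n ^ 4 := by ring
    exact (Nat.pow_le_pow_iff_left (by norm_num)).1 h3
  have hn0 : 0 < n := by omega
  have hv : VarInj (code n hn0 q) M q := code_inj hn0 hMqq
  have hKn : ln < n := by
    have : ln < 2 ^ ln := Nat.lt_two_pow_self
    omega
  have hM1 : 1 ≤ M := by rw [← hM]; exact Nat.one_le_two_pow
  have hs1 : lw + 1 + 1 ≤ q := by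
    have : lw + 1 < 2 ^ (lw + 1) := Nat.lt_two_pow_self
    omega
  have hqn : q * q ≤ n := by nlinarith
  have hqn' : q ≤ n := by nlinarith
  refine ⟨(root (code n hn0 q) q (2 * K)).1, ?_, ?_, ?_⟩
  · have hv' : VarInj (code n hn0 q) (2 ^ (2 * K + 1)) (2 ^ (lw + 1)) := by rw [hM, hq]; exact hv
    have h1 := upper_depth hv' (by omega)
    rw [hM, hq] at h1
    refine h1.mono ?_ ?_
    · have a1 : 2 * K * (M * (q * ((lw + 1 + 1) * q))) ≤ n * (n * n) := by
        calc 2 * K * (M * (q * ((lw + 1 + 1) * q))) = 2 * K * ((lw + 1 + 1) * (M * q * q)) := by ring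
          _ ≤ n * (n * n) := Nat.mul_le_mul (by omega) (Nat.mul_le_mul (by omega) hMqq)
      have a2 : 2 * K * (M * q) ≤ n * n := by
        apply Nat.mul_le_mul (by omega)
        calc M * q = M * q * 1 := by ring
          _ ≤ M * q * q := Nat.mul_le_mul_left _ (by omega)
          _ ≤ n := hMqq
      have a3 : (lw + 1) * q ≤ n * n := Nat.mul_le_mul (by omega) hqn'
      have a4 : n * (n * n) + n * n + n * n ≤ n ^ 4 := by
        have : n ^ 4 = n * (n * (n * n)) := by ring
        rw [this]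
        have g1 : n * n ≤ n * (n * n) := Nat.mul_le_mul_left _ (by nlinarith)
        have g2 : 3 * (n * (n * n)) ≤ n * (n * (n * n)) := Nat.mul_le_mul_right _ (by omega)
        omega
      omega
    · have b2 : 8 * (lw + 1) ≤ ln * (lw + 1) := Nat.mul_le_mul_right _ hln8
      have b3 : 8 * K * (lw + 1 + 2) ≤ ln * (lw + 1 + 2) := Nat.mul_le_mul_right _ hK8
      have b4 : ln * (lw + 1 + 2) = ln * (lw + 1) + 2 * ln := by ring
      have b5 : 8 * K * (lw + 1 + 2) = 4 * (2 * K * (lw + 1 + 2)) := by ring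
      have b6 : ln * 1 ≤ ln * (lw + 1) := Nat.mul_le_mul_left _ (by omega)
      omega
  · have hv' : VarInj (code n hn0 q) (2 ^ (2 * K + 1)) q := by rw [hM]; exact hv
    obtain ⟨T, _, h1⟩ := upper_width hv' (by omega)
    refine ⟨T, h1.mono ?_ ?_⟩
    · have a0 : 2 ^ (2 * K) ≤ M := by
        rw [← hM]; exact Nat.pow_le_pow_right (by norm_num) (by omega)
      have a1 : 2 ^ (2 * K) * (4 * q + 6) ≤ M * (7 * q) := Nat.mul_le_mul a0 (by omega)
      calc 2 ^ (2 * K) * (4 * q + 6) * ((2 * K + 4) * q) ≤ M * (7 * q) * ((2 * K + 4) * q) :=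
            Nat.mul_le_mul_right _ a1
        _ = 7 * (2 * K + 4) * (M * q * q) := by ring
        _ ≤ 7 * (2 * K + 4) * n := Nat.mul_le_mul_left _ hMqq
        _ ≤ (n * n * n) * n := by
            apply Nat.mul_le_mul_right
            have : 7 * (2 * K + 4) ≤ n * n := by nlinarith
            nlinarith
        _ = n ^ 4 := by ring
    · calc (2 * K + 4) * q ≤ (2 * K + 4) * (2 * W) := Nat.mul_le_mul_left _ hqW
        _ ≤ ln * (2 * W) := Nat.mul_le_mul_right _ (by omega)
        _ = 2 * W * ln := by ring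
  · intro T s w h
    obtain ⟨L, h0, h1, h2, h3, D, hD⟩ := h
    have hout : ∀ y, ((root (code n hn0 q) q (2 * K)).1, D).1 y = true ↔
        TreeFun (code n hn0 q) M q y := by
      intro y
      rw [← hM]
      exact root_iff y
    have hlow := lower hv hout h0 h3 hD w (fun t a b => (h1 t a b).2) (K - 1) (by
      rw [← hM, show 2 * (K - 1) + 3 = 2 * K + 1 by omega])
    rw [Nat.sub_add_cancel hK1] at hlow
    have hTs : T ≤ s := by
      refine le_trans ?_ h2
      calc T = ∑ t ∈ Finset.Icc 1 T, 1 := by simp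
        _ ≤ _ := by
          apply Finset.sum_le_sum
          intro t ht
          rw [Finset.mem_Icc] at ht
          exact Finset.card_pos.2 (h1 t ht.1 ht.2).1
    calc W ^ K ≤ q ^ K := Nat.pow_le_pow_left hWq _
      _ ≤ T * w ^ K := hlow
      _ ≤ s * w ^ K := Nat.mul_le_mul_right _ hTs

end Pool.Agent.V7H37.SN
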