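import Pool.Agent.V7H37.SN.Defs
import Pool.Agent.V7H37.SN.Core

/-!
# The history of an accepted input of a decomposable layered circuit
-/

set_option autoImplicit false

namespace Pool.Agent.V7H37.SN

variable {V : Type} [DecidableEq V]

/-- the function depends only on the recorded variables -/
def Local (g : Node V) : Prop := ∀ y y' : V → Bool, (∀ v ∈ g.2, y v = y' v) → g.1 y = g.1 y'

lemma IsInput.isLocal {a : Node V} (h : IsInput a) : Local a := by
  intro y y' hy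
  rcases h with ⟨b, rfl⟩ | ⟨v, rfl | rfl⟩
  · rfl
  · exact hy v (by simp [lit])
  · have := hy v (by simp [nlit])
    simp [nlit, this]

lemma IsInput.card {a : Node V} (h : IsInput a) {v w : V} (hv : v ∈ a.2) (hw : w ∈ a.2) : v = w := by
  rcases h with ⟨b, rfl⟩ | ⟨u, rfl | rfl⟩
  · simp [cst] at hv
  · simp only [lit, Finset.mem_singleton] at hv hw
    rw [hv, hw]
  · simp only [nlit, Finset.mem_singleton] at hv hw
    rw [hv, hw]

lemma IsGate.isLocal {dec : Prop} {P : Node V → Prop} {g : Node V} (h : IsGate dec P g)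
    (hP : ∀ a, P a → Local a) : Local g := by
  obtain ⟨a, b, ha, hb, h⟩ := h
  intro y y' hy
  rcases h with rfl | ⟨rfl, _⟩ | ⟨rfl, _⟩
  · have h1 := hP a ha y y' (fun v hv => hy v (Finset.mem_union_left _ hv))
    have h2 := hP b hb y y' (fun v hv => hy v (Finset.mem_union_right _ hv))
    simp only [gor, h1, h2]
  · have h1 := hP a ha y y' (fun v hv => hy v (Finset.mem_union_left _ hv))
    have h2 := hP b hb y y' (fun v hv => hy v (Finset.mem_union_right _ hv))
    simp only [gand, h1, h2]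
  · have h1 := hP a ha y y' hy
    simp only [gnot, h1]

/-- the arguments of `h` which certify that `h` is true at `z` -/
lemma exists_chosen {P : Node V → Prop} {h : Node V} (hg : IsGate True P h) {z : V → Bool}
    (hz : h.1 z = true) : ∃ (a b : Node V) (C : Set (Node V)), (∀ c ∈ C, c = a ∨ c = b) ∧
      (∀ c ∈ C, P c) ∧ (∀ c ∈ C, c.1 z = true) ∧
      (∀ y, (∀ c ∈ C, c.1 y = true) → h.1 y = true) ∧
      (∀ c ∈ C, ∀ c' ∈ C, c ≠ c' → Disjoint c.2 c'.2) ∧ (∀ c ∈ C, c.2 ⊆ h.2) := by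
  obtain ⟨a, b, ha, hb, hh⟩ := hg
  refine ⟨a, b, ?_⟩
  rcases hh with rfl | ⟨rfl, hd⟩ | ⟨_, hn⟩
  · simp only [gor, Bool.or_eq_true] at hz
    rcases hz with hz | hz
    · refine ⟨{a}, fun c hc => Or.inl hc, ?_, ?_, ?_, ?_, ?_⟩
      · rintro c rfl; exact ha
      · rintro c rfl; exact hz
      · intro y hy; simp [gor, hy a rfl]
      · rintro c rfl c' rfl hne; exact absurd rfl hne
      · rintro c rfl; exact Finset.subset_union_left
    · refine ⟨{b}, fun c hc => Or.inr hc, ?_, ?_, ?_, ?_, ?_⟩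
      · rintro c rfl; exact hb
      · rintro c rfl; exact hz
      · intro y hy; simp [gor, hy b rfl]
      · rintro c rfl c' rfl hne; exact absurd rfl hne
      · rintro c rfl; exact Finset.subset_union_right
  · have hd := hd trivial
    simp only [gand, Bool.and_eq_true] at hz
    refine ⟨{a, b}, fun c hc => hc, ?_, ?_, ?_, ?_, ?_⟩
    · rintro c (rfl | rfl)
      · exact ha
      · exact hb
    · rintro c (rfl | rfl)
      · exact hz.1
      · exact hz.2
    · intro y hy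
      simp [gand, hy a (Or.inl rfl), hy b (Or.inr rfl)]
    · rintro c (rfl | rfl) c' (rfl | rfl) hne
      · exact absurd rfl hne
      · exact hd
      · exact hd.symm
      · exact absurd rfl hne
    · rintro c (rfl | rfl)
      · exact Finset.subset_union_left
      · exact Finset.subset_union_right
  · exact absurd trivial hn

/-- The state of a computation: the gates in `S` are true at `z`, they depend on disjoint sets of
variables, not on those in `m`, and the output is true whenever they are true and the variables in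
`m` have the same values as at `z`. -/
structure Inv (Lt : Finset (Node V)) (z : V → Bool) (out : Node V) (S : Set (Node V)) (m : Set V) :
    Prop where
  sub : ∀ g ∈ S, g ∈ Lt
  tr : ∀ g ∈ S, g.1 z = true
  disj : ∀ g ∈ S, ∀ g' ∈ S, ∀ v ∈ g.2, v ∈ g'.2 → g = g'
  mdisj : ∀ g ∈ S, ∀ v ∈ m, v ∉ g.2
  acc : ∀ y, (∀ g ∈ S, g.1 y = true) → (∀ v ∈ m, y v = z v) → out.1 y = true

lemma step_down {L L' : Finset (Node V)} {z : V → Bool} {out : Node V} {S : Set (Node V)} {m : Set V}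
    (hL : ∀ g ∈ L', IsGate True (fun a => a ∈ L ∨ IsInput a) g) (h : Inv L' z out S m) :
    ∃ (S' : Set (Node V)) (m' : Set V), Inv L z out S' m' ∧ m ⊆ m' ∧
      (∀ g ∈ S', ∃ h ∈ S, g.2 ⊆ h.2) ∧
      ∀ h ∈ S, ∀ v1 v2 v3, v1 ∈ m' → v2 ∈ m' → v3 ∈ m' → v1 ∈ h.2 → v2 ∈ h.2 → v3 ∈ h.2 →
        v1 = v2 ∨ v1 = v3 ∨ v2 = v3 := by
  classical
  have key : ∀ g : S, ∃ (a b : Node V) (C : Set (Node V)), (∀ c ∈ C, c = a ∨ c = b) ∧
      (∀ c ∈ C, c ∈ L ∨ IsInput c) ∧ (∀ c ∈ C, c.1 z = true) ∧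
      (∀ y, (∀ c ∈ C, c.1 y = true) → g.1.1 y = true) ∧
      (∀ c ∈ C, ∀ c' ∈ C, c ≠ c' → Disjoint c.2 c'.2) ∧ (∀ c ∈ C, c.2 ⊆ g.1.2) :=
    fun g => exists_chosen (hL g.1 (h.sub g.1 g.2)) (h.tr g.1 g.2)
  choose a b C hab hP htr hall hdis hsub using key
  refine ⟨{c | c ∈ L ∧ ∃ g : S, c ∈ C g}, {v | v ∈ m ∨ ∃ g : S, ∃ c ∈ C g, c ∉ L ∧ v ∈ c.2}, ?_,
    fun v hv => Or.inl hv, ?_, ?_⟩
  · constructor
    · rintro c ⟨hc, _⟩; exact hc
    · rintro c ⟨_, g, hg⟩; exact htr g c hg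
    · rintro c ⟨hc, g, hg⟩ c' ⟨hc', g', hg'⟩ v hv hv'
      have : g = g' := Subtype.ext (h.disj g.1 g.2 g'.1 g'.2 v (hsub g c hg hv) (hsub g' c' hg' hv'))
      subst this
      by_contra hne
      exact Finset.disjoint_left.1 (hdis g c hg c' hg' hne) hv hv'
    · rintro c ⟨hc, g, hg⟩ v (hv | ⟨g', c', hc', hcL, hv⟩) hvc
      · exact h.mdisj g.1 g.2 v hv (hsub g c hg hvc)
      · have : g = g' := Subtype.ext (h.disj g.1 g.2 g'.1 g'.2 v (hsub g c hg hvc)
          (hsub g' c' hc' hv))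
        subst this
        have hne : c ≠ c' := fun h => hcL (h ▸ hc)
        exact Finset.disjoint_left.1 (hdis g c hg c' hc' hne) hvc hv
    · intro y hy hm
      apply h.acc y
      · intro g hg
        apply hall ⟨g, hg⟩ y
        intro c hc
        by_cases hcL : c ∈ L
        · exact hy c ⟨hcL, ⟨g, hg⟩, hc⟩
        · have hin : IsInput c := (hP ⟨g, hg⟩ c hc).resolve_left hcL
          rw [hin.isLocal y z (fun v hv => hm v (Or.inr ⟨⟨g, hg⟩, c, hc, hcL, hv⟩))]
          exact htr ⟨g, hg⟩ c hc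
      · intro v hv
        exact hm v (Or.inl hv)
  · rintro c ⟨_, g, hg⟩
    exact ⟨g.1, g.2, hsub g c hg⟩
  · intro g hg v1 v2 v3 h1 h2 h3 g1 g2 g3
    have key : ∀ v, v ∈ m ∨ (∃ g : S, ∃ c ∈ C g, c ∉ L ∧ v ∈ c.2) → v ∈ g.2 →
        (IsInput (a ⟨g, hg⟩) ∧ v ∈ (a ⟨g, hg⟩).2) ∨ (IsInput (b ⟨g, hg⟩) ∧ v ∈ (b ⟨g, hg⟩).2) := by
      rintro v (hv | ⟨g', c', hc', hcL, hv⟩) hvg
      · exact absurd hvg (h.mdisj g hg v hv)
      · have hgg : g' = ⟨g, hg⟩ := Subtype.ext (h.disj g'.1 g'.2 g hg v (hsub g' c' hc' hv) hvg)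
        subst hgg
        have hin : IsInput c' := (hP _ c' hc').resolve_left hcL
        rcases hab _ c' hc' with h | h
        · exact Or.inl ⟨h ▸ hin, h ▸ hv⟩
        · exact Or.inr ⟨h ▸ hin, h ▸ hv⟩
    rcases key v1 h1 g1 with ⟨i1, k1⟩ | ⟨i1, k1⟩ <;> rcases key v2 h2 g2 with ⟨i2, k2⟩ | ⟨i2, k2⟩
    · exact Or.inl (i1.card k1 k2)
    · rcases key v3 h3 g3 with ⟨i3, k3⟩ | ⟨i3, k3⟩
      · exact Or.inr (Or.inl (i1.card k1 k3))
      · exact Or.inr (Or.inr (i2.card k2 k3))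
    · rcases key v3 h3 g3 with ⟨i3, k3⟩ | ⟨i3, k3⟩
      · exact Or.inr (Or.inr (i2.card k2 k3))
      · exact Or.inr (Or.inl (i1.card k1 k3))
    · exact Or.inl (i1.card k1 k2)

/-- the whole history -/
lemma chain {L : ℕ → Finset (Node V)} {z : V → Bool} {out : Node V} (T : ℕ)
    (hL : ∀ t < T, ∀ g ∈ L (t + 1), IsGate True (fun a => a ∈ L t ∨ IsInput a) g) :
    ∀ (S : Set (Node V)) (m : Set V), Inv (L T) z out S m → ∃ (S' : ℕ → Set (Node V)) (m' : ℕ → Set V),
      S' T = S ∧ m' T = m ∧ (∀ t ≤ T, Inv (L t) z out (S' t) (m' t)) ∧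
      ∀ t < T, m' (t + 1) ⊆ m' t ∧ (∀ g ∈ S' t, ∃ h ∈ S' (t + 1), g.2 ⊆ h.2) ∧
        ∀ h ∈ S' (t + 1), ∀ v1 v2 v3, v1 ∈ m' t → v2 ∈ m' t → v3 ∈ m' t → v1 ∈ h.2 → v2 ∈ h.2 →
          v3 ∈ h.2 → v1 = v2 ∨ v1 = v3 ∨ v2 = v3 := by
  induction T with
  | zero =>
    intro S m h
    refine ⟨fun _ => S, fun _ => m, rfl, rfl, ?_, ?_⟩
    · intro t ht
      obtain rfl : t = 0 := by omega
      exact h
    · intro t ht; omega
  | succ T ih =>
    intro S m h
    obtain ⟨S1, m1, h1, h2, h3, h4⟩ := step_down (hL T (by omega)) h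
    obtain ⟨S', m', e1, e2, e3, e4⟩ := ih (fun t ht => hL t (by omega)) S1 m1 h1
    refine ⟨fun t => if t = T + 1 then S else S' t, fun t => if t = T + 1 then m else m' t,
      by simp, by simp, ?_, ?_⟩
    · intro t ht
      by_cases hT : t = T + 1
      · subst hT; simpa using h
      · simp only [hT, if_false]; exact e3 t (by omega)
    · intro t ht
      by_cases hT : t = T
      · subst hT
        have hne : ¬ t = t + 1 := by omega
        simp only [hne, if_false, if_true, e1, e2]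
        exact ⟨h2, h3, h4⟩
      · have hne : ¬ t = T + 1 := by omega
        have hne2 : ¬ t + 1 = T + 1 := by omega
        simp only [hne, hne2, if_false]
        exact e4 t (by omega)

end Pool.Agent.V7H37.SN
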