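import Pool.Agent.V7H37.SN.Hist

/-!
# The lower bound for the width of decomposable circuits
-/

set_option autoImplicit false
set_option linter.unusedSectionVars false

namespace Pool.Agent.V7H37.SN

variable {V : Type} [DecidableEq V]

/-- There is a labelling of the nodes of the tree by numbers `< q` such that for every edge
`x, x / 2` of the tree the variable `(x, label of x, label of x / 2)` is true. -/
def TreeFun (vr : ℕ → ℕ → ℕ → V) (M q : ℕ) (y : V → Bool) : Prop :=
  ∃ l : ℕ → ℕ, (∀ v, l v < q) ∧ ∀ x, 2 ≤ x → x < M → y (vr x (l x) (l (x / 2))) = true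

/-- the variables are different -/
def VarInj (vr : ℕ → ℕ → ℕ → V) (M q : ℕ) : Prop :=
  ∀ x a b x' a' b', x < M → a < q → b < q → x' < M → a' < q → b' < q →
    vr x a b = vr x' a' b' → x = x' ∧ a = a' ∧ b = b'

section

variable (vr : ℕ → ℕ → ℕ → V) (M q : ℕ)

/-- the variable of the edge `x` -/
def wv (l : ℕ → ℕ) (x : ℕ) : V := vr x (l x) (l (x / 2))

open Classical in
/-- the minimal true input with labelling `l` -/
noncomputable def zl (l : ℕ → ℕ) (v : V) : Bool := decide (∃ x, 2 ≤ x ∧ x < M ∧ v = wv vr l x)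

variable {vr M q}

lemma zl_iff {l : ℕ → ℕ} {v : V} : zl vr M l v = true ↔ ∃ x, 2 ≤ x ∧ x < M ∧ v = wv vr l x := by
  simp [zl]

lemma zl_true {l : ℕ → ℕ} (hl : ∀ v, l v < q) : TreeFun vr M q (zl vr M l) :=
  ⟨l, hl, fun x hx hxM => zl_iff.2 ⟨x, hx, hxM, rfl⟩⟩

lemma wv_inj (hv : VarInj vr M q) {l l' : ℕ → ℕ} (hl : ∀ v, l v < q) (hl' : ∀ v, l' v < q) {x x' : ℕ}
    (hx : x < M) (hx' : x' < M) (h : wv vr l x = wv vr l' x') :
    x = x' ∧ l x = l' x' ∧ l (x / 2) = l' (x' / 2) :=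
  hv _ _ _ _ _ _ hx (hl _) (hl _) hx' (hl' _) (hl' _) h

variable {L : ℕ → Finset (Node V)} {T : ℕ} {out : Node V}

lemma all_local (h0 : L 0 = ∅)
    (hL : ∀ t < T, ∀ g ∈ L (t + 1), IsGate True (fun a => a ∈ L t ∨ IsInput a) g) :
    ∀ t ≤ T, ∀ g ∈ L t, Local g := by
  intro t
  induction t with
  | zero => intro _ g hg; rw [h0] at hg; simp at hg
  | succ t ih =>
    intro ht g hg
    apply (hL t (by omega) g hg).isLocal
    rintro a (ha | ha)
    · exact ih (by omega) a ha
    · exact ha.isLocal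

/-- every edge is read -/
lemma crit (hv : VarInj vr M q) (hout : ∀ y, out.1 y = true ↔ TreeFun vr M q y) {l : ℕ → ℕ}
    (hl : ∀ v, l v < q) {Lt : Finset (Node V)} (hloc : ∀ g ∈ Lt, Local g) {S : Set (Node V)}
    {m : Set V} (h : Inv Lt (zl vr M l) out S m) {x : ℕ} (hx : 2 ≤ x) (hxM : x < M) :
    wv vr l x ∈ m ∨ ∃ g ∈ S, wv vr l x ∈ g.2 := by
  by_contra hcon
  push Not at hcon
  obtain ⟨h1, h2⟩ := hcon
  have hy := h.acc (fun v => if v = wv vr l x then false else zl vr M l v) ?_ ?_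
  · rw [hout] at hy
    obtain ⟨l', hl', hy⟩ := hy
    have h3 := hy x hx hxM
    by_cases h4 : vr x (l' x) (l' (x / 2)) = wv vr l x
    · simp [h4] at h3
    · simp only [h4, if_false] at h3
      rw [zl_iff] at h3
      obtain ⟨x', hx', hxM', h5⟩ := h3
      have h6 := wv_inj hv hl' hl hxM hxM' h5
      obtain ⟨rfl, h7, h8⟩ := h6
      apply h4
      rw [h7, h8]
      rfl
  · intro g hg
    rw [← h.tr g hg]
    apply hloc g (h.sub g hg)
    intro v hv'
    have : v ≠ wv vr l x := fun h' => h2 g hg (h' ▸ hv')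
    simp [this]
  · intro v hv'
    have : v ≠ wv vr l x := fun h' => h1 (h' ▸ hv')
    simp [this]

/-- the border condition for a gate -/
def GB (vr : ℕ → ℕ → ℕ → V) (M : ℕ) (l : ℕ → ℕ) (g : Node V) (v : ℕ) : Prop :=
  ∃ e f, 2 ≤ e ∧ e < M ∧ 2 ≤ f ∧ f < M ∧ Inc v e ∧ Inc v f ∧ wv vr l e ∈ g.2 ∧ wv vr l f ∉ g.2

/-- `g` occurs in some state for the labelling `l` -/
def Active (vr : ℕ → ℕ → ℕ → V) (M : ℕ) (out : Node V) (Lt : Finset (Node V)) (l : ℕ → ℕ)
    (g : Node V) : Prop := ∃ S m, Inv Lt (zl vr M l) out S m ∧ g ∈ S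

/-- At some time many labels are known to the gates. -/
lemma exists_border (hv : VarInj vr M q) (hout : ∀ y, out.1 y = true ↔ TreeFun vr M q y) {l : ℕ → ℕ}
    (hl : ∀ v, l v < q) (h0 : L 0 = ∅)
    (hL : ∀ t < T, ∀ g ∈ L (t + 1), IsGate True (fun a => a ∈ L t ∨ IsInput a) g)
    (hT : out ∈ L T) (k : ℕ) (hM : 2 ^ (2 * k + 3) ≤ M) :
    ∃ t, 1 ≤ t ∧ t ≤ T ∧ ∃ S : Finset ℕ, S.card = k + 1 ∧ ∀ v ∈ S, v < M ∧
      ∃ g ∈ L t, Active vr M out (L t) l g ∧ GB vr M l g v := by
  have hinv : Inv (L T) (zl vr M l) out {out} ∅ := by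
    constructor
    · rintro g rfl; exact hT
    · rintro g rfl; rw [hout]; exact zl_true hl
    · rintro g rfl g' rfl v _ _; rfl
    · intro g _ v hv; simp at hv
    · intro y hy _; exact hy out rfl
  obtain ⟨S, m, hS, hm, hI, hr⟩ := chain T hL {out} ∅ hinv
  have hloc := all_local h0 hL
  have hcrit : ∀ t ≤ T, ∀ x, 2 ≤ x → x < M → wv vr l x ∈ m t ∨ ∃ g ∈ S t, wv vr l x ∈ g.2 :=
    fun t ht x hx hxM => crit hv hout hl (hloc t ht) (hI t ht) hx hxM
  let R : ℕ → ℕ → ℕ → Prop := fun t x y => t ≤ T ∧ ∃ g ∈ S t, wv vr l x ∈ g.2 ∧ wv vr l y ∈ g.2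
  have H : Hist M T R := by
    constructor
    · rintro t x y ⟨ht, g, hg, h1, h2⟩; exact ⟨ht, g, hg, h2, h1⟩
    · rintro t x y z ⟨ht, g, hg, h1, h2⟩ ⟨_, g', hg', h3, h4⟩
      have : g = g' := (hI t ht).disj g hg g' hg' _ h2 h3
      subst this
      exact ⟨ht, g, hg, h1, h4⟩
    · rintro t ht x y _ _ _ _ ⟨_, g, hg, h1, h2⟩
      obtain ⟨h, hh, hsub⟩ := (hr t ht).2.1 g hg
      exact ⟨ht, h, hh, hsub h1, hsub h2⟩
    · rintro x ⟨_, g, hg, _, _⟩
      have := (hI 0 (Nat.zero_le _)).sub g hg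
      rw [h0] at this
      simp at this
    · rintro t ht x y z hx hxM hy hyM hz hzM nx ny nz hxy hxz hyz ⟨h1, g, hg, gx, gy⟩
        ⟨_, g', hg', gx', gz⟩
      have : g = g' := (hI (t + 1) h1).disj g hg g' hg' _ gx gx'
      subst this
      have hm' : ∀ x, 2 ≤ x → x < M → ¬ R t x x → wv vr l x ∈ m t := by
        intro x hx hxM hn
        rcases hcrit t (by omega) x hx hxM with h | ⟨g, hg, h⟩
        · exact h
        · exact absurd ⟨by omega, g, hg, h, h⟩ hn
      rcases (hr t ht).2.2 g hg _ _ _ (hm' x hx hxM nx) (hm' y hy hyM ny) (hm' z hz hzM nz) gx gy gz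
        with h | h | h
      · exact hxy (wv_inj hv hl hl hxM hyM h).1
      · exact hxz (wv_inj hv hl hl hxM hzM h).1
      · exact hyz (wv_inj hv hl hl hyM hzM h).1
    · intro x y hx hxM hy hyM
      have key : ∀ x, 2 ≤ x → x < M → wv vr l x ∈ out.2 := by
        intro x hx hxM
        rcases hcrit T le_rfl x hx hxM with h | ⟨g, hg, h⟩
        · rw [hm] at h; simp at h
        · rw [hS] at hg
          rw [Set.mem_singleton_iff] at hg
          rwa [← hg]
      exact ⟨le_rfl, out, by rw [hS]; rfl, key x hx hxM, key y hy hyM⟩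
  obtain ⟨t, ht, N, hN, hb⟩ := many H k 1 le_rfl (by
    calc (1 + 1) * 2 ^ (2 * k + 2) = 2 ^ (2 * k + 3) := by rw [pow_succ _ (2 * k + 2)]; ring
      _ ≤ M := hM)
  have hM' : (1 + 1) * 2 ^ (2 * k + 2) ≤ M := by
    calc (1 + 1) * 2 ^ (2 * k + 2) = 2 ^ (2 * k + 3) := by rw [pow_succ _ (2 * k + 2)]; ring
      _ ≤ M := hM
  refine ⟨t, ?_, ht, N, hN, ?_⟩
  · obtain ⟨v, hvN⟩ : N.Nonempty := Finset.card_pos.1 (by omega)
    obtain ⟨_, e, f, _, _, _, _, hR, _⟩ := hb v hvN
    by_contra h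
    obtain rfl : t = 0 := by omega
    exact H.zero _ hR
  · intro v hvN
    obtain ⟨_, e, f, ie, jf, de, df, hR, hnR⟩ := hb v hvN
    obtain ⟨_, g, hg, hge, _⟩ := hR
    refine ⟨?_, g, (hI t ht).sub g hg, ⟨S t, m t, hI t ht, hg⟩, e, f, de.two_le le_rfl,
      de.lt hM', df.two_le le_rfl, df.lt hM', ie, jf, hge, ?_⟩
    · have := de.lt hM'
      rcases ie with rfl | rfl
      · exact this
      · omega
    · intro hf
      exact hnR ⟨ht, g, hg, hge, hf⟩

/-- the input which agrees with `l'` at the variables below `g` and with `l` elsewhere is accepted -/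
lemma mix (hv : VarInj vr M q) (hout : ∀ y, out.1 y = true ↔ TreeFun vr M q y)
    {Lt : Finset (Node V)} (hloc : ∀ g ∈ Lt, Local g) {l l' : ℕ → ℕ} {g : Node V}
    (h : Active vr M out Lt l g) (h' : Active vr M out Lt l' g) :
    ∃ l'' : ℕ → ℕ, (∀ v, l'' v < q) ∧ ∀ x, 2 ≤ x → x < M →
      ((wv vr l'' x ∈ g.2 → ∃ x', 2 ≤ x' ∧ x' < M ∧ wv vr l'' x = wv vr l' x') ∧
       (wv vr l'' x ∉ g.2 → ∃ x', 2 ≤ x' ∧ x' < M ∧ wv vr l'' x = wv vr l x')) := by
  obtain ⟨S, m, hI, hg⟩ := h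
  obtain ⟨S', m', hI', hg'⟩ := h'
  have hy := hI.acc (fun v => if v ∈ g.2 then zl vr M l' v else zl vr M l v) ?_ ?_
  · rw [hout] at hy
    obtain ⟨l'', hl'', hy⟩ := hy
    refine ⟨l'', hl'', fun x hx hxM => ?_⟩
    have h3 := hy x hx hxM
    constructor
    · intro h4
      have h4' : vr x (l'' x) (l'' (x / 2)) ∈ g.2 := h4
      simp only [h4', if_true] at h3
      exact zl_iff.1 h3
    · intro h4
      have h4' : vr x (l'' x) (l'' (x / 2)) ∉ g.2 := h4
      simp only [h4', if_false] at h3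
      exact zl_iff.1 h3
  · intro u hu
    by_cases hug : u = g
    · subst hug
      rw [← hI'.tr u hg']
      apply hloc u (hI.sub u hu)
      intro v hv'
      simp [hv']
    · rw [← hI.tr u hu]
      apply hloc u (hI.sub u hu)
      intro v hv'
      have : v ∉ g.2 := fun h' => hug (hI.disj u hu g hg v hv' h')
      simp [this]
  · intro v hv'
    have : v ∉ g.2 := hI.mdisj g hg v hv'
    simp [this]

lemma index_eq (hv : VarInj vr M q) (hout : ∀ y, out.1 y = true ↔ TreeFun vr M q y)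
    {Lt : Finset (Node V)} (hloc : ∀ g ∈ Lt, Local g) {l l' : ℕ → ℕ} (hl : ∀ v, l v < q)
    (hl' : ∀ v, l' v < q) {g : Node V} (h : Active vr M out Lt l g)
    (h' : Active vr M out Lt l' g) {x : ℕ} (hx : 2 ≤ x) (hxM : x < M) (hxg : wv vr l x ∈ g.2) :
    wv vr l' x ∈ g.2 := by
  obtain ⟨l'', hl'', key⟩ := mix hv hout hloc h h'
  obtain ⟨k1, k2⟩ := key x hx hxM
  by_cases h1 : wv vr l'' x ∈ g.2
  · obtain ⟨x', hx', hxM', h2⟩ := k1 h1
    obtain ⟨rfl, _, _⟩ := wv_inj hv hl'' hl' hxM hxM' h2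
    rwa [← h2]
  · obtain ⟨x', hx', hxM', h2⟩ := k2 h1
    obtain ⟨rfl, _, _⟩ := wv_inj hv hl'' hl hxM hxM' h2
    rw [h2] at h1
    exact absurd hxg h1

/-- **Border labels are determined by the gate.** -/
lemma label_eq (hv : VarInj vr M q) (hout : ∀ y, out.1 y = true ↔ TreeFun vr M q y)
    {Lt : Finset (Node V)} (hloc : ∀ g ∈ Lt, Local g) {l l' : ℕ → ℕ} (hl : ∀ v, l v < q)
    (hl' : ∀ v, l' v < q) {g : Node V} (h : Active vr M out Lt l g)
    (h' : Active vr M out Lt l' g) {v : ℕ} (hb : GB vr M l g v) : l v = l' v := by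
  obtain ⟨e, f, he, heM, hf, hfM, ie, jf, hge, hgf⟩ := hb
  have hge' : wv vr l' e ∈ g.2 := index_eq hv hout hloc hl hl' h h' he heM hge
  have hgf' : wv vr l' f ∉ g.2 := fun h1 => hgf (index_eq hv hout hloc hl' hl h' h hf hfM h1)
  obtain ⟨l'', hl'', key⟩ := mix hv hout hloc h h'
  have e1 : l'' e = l' e ∧ l'' (e / 2) = l' (e / 2) := by
    obtain ⟨k1, k2⟩ := key e he heM
    by_cases h1 : wv vr l'' e ∈ g.2
    · obtain ⟨x', hx', hxM', h2⟩ := k1 h1
      obtain ⟨rfl, h3, h4⟩ := wv_inj hv hl'' hl' heM hxM' h2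
      exact ⟨h3, h4⟩
    · obtain ⟨x', hx', hxM', h2⟩ := k2 h1
      obtain ⟨rfl, _, _⟩ := wv_inj hv hl'' hl heM hxM' h2
      rw [h2] at h1
      exact absurd hge h1
  have f1 : l'' f = l f ∧ l'' (f / 2) = l (f / 2) := by
    obtain ⟨k1, k2⟩ := key f hf hfM
    by_cases h1 : wv vr l'' f ∈ g.2
    · obtain ⟨x', hx', hxM', h2⟩ := k1 h1
      obtain ⟨rfl, _, _⟩ := wv_inj hv hl'' hl' hfM hxM' h2
      rw [h2] at h1
      exact absurd h1 hgf'
    · obtain ⟨x', hx', hxM', h2⟩ := k2 h1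
      obtain ⟨rfl, h3, h4⟩ := wv_inj hv hl'' hl hfM hxM' h2
      exact ⟨h3, h4⟩
  have ev : l'' v = l' v := by
    rcases ie with rfl | rfl
    · exact e1.1
    · exact e1.2
  have fv : l'' v = l v := by
    rcases jf with rfl | rfl
    · exact f1.1
    · exact f1.2
  rw [← ev, fv]

/-- extension of a labelling -/
def extl {M q : ℕ} (c : Fin M → Fin q) (v : ℕ) : ℕ := if h : v < M then c ⟨v, h⟩ else 0

lemma extl_lt {M q : ℕ} (hq : 0 < q) (c : Fin M → Fin q) (v : ℕ) : extl c v < q := by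
  unfold extl
  split_ifs
  · exact (c _).2
  · exact hq

/-- **The width-size trade-off.** -/
theorem lower (hv : VarInj vr M q) (hout : ∀ y, out.1 y = true ↔ TreeFun vr M q y) (h0 : L 0 = ∅)
    (hL : ∀ t < T, ∀ g ∈ L (t + 1), IsGate True (fun a => a ∈ L t ∨ IsInput a) g)
    (hT : out ∈ L T) (w : ℕ) (hw : ∀ t, 1 ≤ t → t ≤ T → (L t).card ≤ w) (k : ℕ)
    (hM : 2 ^ (2 * k + 3) ≤ M) : q ^ (k + 1) ≤ T * w ^ (k + 1) := by
  classical
  rcases Nat.eq_zero_or_pos q with rfl | hq
  · rw [zero_pow (by omega)]; exact Nat.zero_le _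
  have hkM : k + 1 ≤ M := by
    have : 2 * k + 3 < 2 ^ (2 * k + 3) := Nat.lt_two_pow_self
    omega
  have hloc := all_local h0 hL
  let Z : ℕ → (Fin (k + 1) → Node V) → Finset (Fin M → Fin q) := fun t φ =>
    Finset.univ.filter (fun c => (∀ i, Active vr M out (L t) (extl c) (φ i)) ∧
      ∃ v : Fin (k + 1) → ℕ, Function.Injective v ∧ ∀ i, v i < M ∧ GB vr M (extl c) (φ i) (v i))
  have hcov : (Finset.univ : Finset (Fin M → Fin q)) ⊆ (Finset.Icc 1 T).biUnion (fun t =>
      (Fintype.piFinset (fun _ : Fin (k + 1) => L t)).biUnion (fun φ => Z t φ)) := by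
    intro c _
    obtain ⟨t, ht1, htT, S, hS, hb⟩ := exists_border hv hout (extl_lt hq c) h0 hL hT k hM
    have hb' : ∀ v : S, ∃ g ∈ L t, Active vr M out (L t) (extl c) g ∧ GB vr M (extl c) g v :=
      fun v => (hb v.1 v.2).2
    choose g hg ha hgb using hb'
    let E := S.equivFinOfCardEq hS
    rw [Finset.mem_biUnion]
    refine ⟨t, Finset.mem_Icc.2 ⟨ht1, htT⟩, ?_⟩
    rw [Finset.mem_biUnion]
    refine ⟨fun i => g (E.symm i), ?_, ?_⟩
    · rw [Fintype.mem_piFinset]
      intro i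
      exact hg _
    · simp only [Z, Finset.mem_filter, Finset.mem_univ, true_and]
      refine ⟨fun i => ha _, fun i => (E.symm i).1, ?_, fun i => ⟨(hb _ (E.symm i).2).1, hgb _⟩⟩
      intro i j hij
      exact E.symm.injective (Subtype.ext hij)
  have hZ : ∀ t ∈ Finset.Icc 1 T, ∀ φ : Fin (k + 1) → Node V, (Z t φ).card ≤ q ^ (M - (k + 1)) := by
    intro t ht φ
    rw [Finset.mem_Icc] at ht
    rcases (Z t φ).eq_empty_or_nonempty with h | ⟨c0, hc0⟩
    · rw [h]; simp
    · have hc0' := hc0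
      simp only [Z, Finset.mem_filter, Finset.mem_univ, true_and] at hc0'
      obtain ⟨hact0, v, hvinj, hvb⟩ := hc0'
      let v' : Fin (k + 1) → Fin M := fun i => ⟨v i, (hvb i).1⟩
      have hv'inj : Function.Injective v' := by
        intro i j hij
        exact hvinj (Fin.mk.inj_iff.1 hij)
      let S0 : Finset (Fin M) := Finset.univ.image v'
      have hS0 : S0.card = k + 1 := by
        rw [Finset.card_image_of_injective _ hv'inj, Finset.card_univ, Fintype.card_fin]
      have hsub : Z t φ ⊆ Fintype.piFinset (fun j => if j ∈ S0 then {c0 j} else Finset.univ) := by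
        intro c hc
        simp only [Z, Finset.mem_filter, Finset.mem_univ, true_and] at hc
        rw [Fintype.mem_piFinset]
        intro j
        split_ifs with hj
        · simp only [S0, Finset.mem_image, Finset.mem_univ, true_and] at hj
          obtain ⟨i, rfl⟩ := hj
          have := label_eq hv hout (hloc t ht.2) (extl_lt hq c0) (extl_lt hq c) (hact0 i) (hc.1 i)
            (hvb i).2
          simp only [extl, (hvb i).1, dif_pos] at this
          rw [Finset.mem_singleton]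
          exact Fin.ext this.symm
        · exact Finset.mem_univ _
      calc (Z t φ).card ≤ _ := Finset.card_le_card hsub
        _ = q ^ (M - (k + 1)) := by
          rw [Fintype.card_piFinset]
          have : ∀ j : Fin M, (if j ∈ S0 then ({c0 j} : Finset (Fin q)) else Finset.univ).card =
              if j ∈ S0 then 1 else q := by
            intro j
            split_ifs <;> simp
          simp only [this]
          rw [Finset.prod_ite, Finset.prod_const_one, one_mul, Finset.prod_const]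
          congr 1
          have : (Finset.univ.filter (fun j => j ∉ S0)) = S0ᶜ := by ext j; simp
          rw [this, Finset.card_compl, Fintype.card_fin, hS0]
  have hcard : q ^ M ≤ T * (w ^ (k + 1) * q ^ (M - (k + 1))) := by
    calc q ^ M = (Finset.univ : Finset (Fin M → Fin q)).card := by
          rw [Finset.card_univ, Fintype.card_fun, Fintype.card_fin, Fintype.card_fin]
      _ ≤ _ := Finset.card_le_card hcov
      _ ≤ ∑ t ∈ Finset.Icc 1 T, ((Fintype.piFinset (fun _ : Fin (k + 1) => L t)).biUnion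
          (fun φ => Z t φ)).card := Finset.card_biUnion_le
      _ ≤ ∑ t ∈ Finset.Icc 1 T, w ^ (k + 1) * q ^ (M - (k + 1)) := by
          apply Finset.sum_le_sum
          intro t ht
          calc _ ≤ ∑ φ ∈ Fintype.piFinset (fun _ : Fin (k + 1) => L t), (Z t φ).card :=
                Finset.card_biUnion_le
            _ ≤ ∑ φ ∈ Fintype.piFinset (fun _ : Fin (k + 1) => L t), q ^ (M - (k + 1)) :=
                Finset.sum_le_sum fun φ _ => hZ t ht φ
            _ = (L t).card ^ (k + 1) * q ^ (M - (k + 1)) := by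
                rw [Finset.sum_const, Fintype.card_piFinset, Finset.prod_const, Finset.card_univ,
                  Fintype.card_fin, smul_eq_mul]
            _ ≤ _ := by
                rw [Finset.mem_Icc] at ht
                exact Nat.mul_le_mul_right _ (Nat.pow_le_pow_left (hw t ht.1 ht.2) _)
      _ = T * (w ^ (k + 1) * q ^ (M - (k + 1))) := by
          rw [Finset.sum_const, Nat.card_Icc, smul_eq_mul]
          congr 1
  have hpos : 0 < q ^ (M - (k + 1)) := pow_pos hq _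
  have hsplit : q ^ M = q ^ (k + 1) * q ^ (M - (k + 1)) := by
    rw [← pow_add]
    congr 1
    omega
  rw [hsplit, ← mul_assoc] at hcard
  exact Nat.le_of_mul_le_mul_right hcard hpos

end

end Pool.Agent.V7H37.SN
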