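import Pool.Agent.V7H37.SN.Lower

/-!
# The gates of the circuits for the tree function
-/

set_option autoImplicit false
set_option linter.unusedSectionVars false

namespace Pool.Agent.V7H37.SN

variable {V : Type} [DecidableEq V]

open Classical in
/-- the disjunction of the nodes `P b`, `b ∈ B` -/
noncomputable def orN (P : ℕ → Node V) (B : Finset ℕ) : Node V :=
  (fun y => decide (∃ b ∈ B, (P b).1 y = true), B.biUnion (fun b => (P b).2))

lemma orN_singleton (P : ℕ → Node V) (b : ℕ) : orN P {b} = P b := by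
  unfold orN
  refine Prod.ext ?_ ?_
  · funext y
    simp
  · simp

lemma orN_empty (P : ℕ → Node V) : orN P ∅ = cst false := by
  unfold orN cst
  refine Prod.ext ?_ ?_
  · funext y
    simp
  · simp

lemma orN_union (P : ℕ → Node V) (B C : Finset ℕ) : orN P (B ∪ C) = gor (orN P B) (orN P C) := by
  classical
  unfold orN gor
  refine Prod.ext ?_ ?_
  · funext y
    rw [Bool.eq_iff_iff]
    simp only [Bool.or_eq_true, decide_eq_true_eq, Finset.mem_union]
    constructor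
    · rintro ⟨b, h | h, h'⟩
      · exact Or.inl ⟨b, h, h'⟩
      · exact Or.inr ⟨b, h, h'⟩
    · rintro (⟨b, h, h'⟩ | ⟨b, h, h'⟩)
      · exact ⟨b, Or.inl h, h'⟩
      · exact ⟨b, Or.inr h, h'⟩
  · ext v
    simp only [Finset.mem_biUnion, Finset.mem_union]
    constructor
    · rintro ⟨b, h | h, h'⟩
      · exact Or.inl ⟨b, h, h'⟩
      · exact Or.inr ⟨b, h, h'⟩
    · rintro (⟨b, h, h'⟩ | ⟨b, h, h'⟩)
      · exact ⟨b, Or.inl h, h'⟩
      · exact ⟨b, Or.inr h, h'⟩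

lemma orN_iff (P : ℕ → Node V) (B : Finset ℕ) (y : V → Bool) :
    (orN P B).1 y = true ↔ ∃ b ∈ B, (P b).1 y = true := by
  simp [orN]

lemma mem_orN (P : ℕ → Node V) (B : Finset ℕ) (v : V) :
    v ∈ (orN P B).2 ↔ ∃ b ∈ B, v ∈ (P b).2 := by
  simp [orN]

section

variable (vr : ℕ → ℕ → ℕ → V) (q : ℕ)

/-- the node for: there is a labelling of the tree below `p` with `j` levels, label of `p` equal to `a` -/
noncomputable def Qn : ℕ → ℕ → ℕ → Node V
  | 0, _, _ => cst true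
  | j + 1, p, a =>
    gand (orN (fun b => gand (lit (vr (2 * p) b a)) (Qn j (2 * p) b)) (Finset.range q))
      (orN (fun b => gand (lit (vr (2 * p + 1) b a)) (Qn j (2 * p + 1) b)) (Finset.range q))

/-- the node for: the edge above `u` is labelled `b`, `a`, and there is a labelling below `u` -/
noncomputable def Pn (j u a b : ℕ) : Node V := gand (lit (vr u b a)) (Qn vr q j u b)

lemma Qn_succ (j p a : ℕ) : Qn vr q (j + 1) p a =
    gand (orN (Pn vr q j (2 * p) a) (Finset.range q))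
      (orN (Pn vr q j (2 * p + 1) a) (Finset.range q)) := rfl

/-- the meaning of `Qn` -/
def Qfun (j p a : ℕ) (y : V → Bool) : Prop :=
  ∃ l : ℕ → ℕ, (∀ v, l v < q) ∧ l p = a ∧ ∀ x, Desc p j x → y (vr x (l x) (l (x / 2))) = true

variable {vr q}

lemma level_ne {x m i p : ℕ} (hp : 1 ≤ p) (h1 : x / 2 ^ m = 2 * p + 1) : x / 2 ^ i ≠ 2 * p := by
  intro h2
  rcases lt_trichotomy m i with h | h | h
  · obtain ⟨d, rfl⟩ := Nat.exists_eq_add_of_lt h
    rw [add_assoc, div_pow_add, h1, div_pow_succ] at h2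
    have : (2 * p + 1) / 2 ^ d ≤ 2 * p + 1 := Nat.div_le_self _ _
    omega
  · subst h; omega
  · obtain ⟨d, rfl⟩ := Nat.exists_eq_add_of_lt h
    rw [add_assoc, div_pow_add, h2, div_pow_succ] at h1
    have : (2 * p) / 2 ^ d ≤ 2 * p := Nat.div_le_self _ _
    omega

lemma Desc.up {p u j x : ℕ} (hu : u / 2 = p) (h : Desc u j x) : Desc p (j + 1) x := by
  obtain ⟨i, h1, h2, h3⟩ := h
  exact ⟨i + 1, by omega, by omega, by rw [div_pow_succ, h3]; exact hu⟩

lemma Qfun_succ {j p a : ℕ} (hp : 1 ≤ p) (ha : a < q) (y : V → Bool) : Qfun vr q (j + 1) p a y ↔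
    (∃ b < q, y (vr (2 * p) b a) = true ∧ Qfun vr q j (2 * p) b y) ∧
    ∃ b < q, y (vr (2 * p + 1) b a) = true ∧ Qfun vr q j (2 * p + 1) b y := by
  classical
  constructor
  · rintro ⟨l, hl, rfl, h⟩
    have key : ∀ u, u / 2 = p → ∃ b < q, y (vr u b (l p)) = true ∧ Qfun vr q j u b y := by
      intro u hu
      refine ⟨l u, hl u, ?_, l, hl, rfl, fun x hx => h x (hx.up hu)⟩
      have := h u ⟨1, le_rfl, by omega, by rw [pow_one]; exact hu⟩
      rwa [hu] at this
    exact ⟨key _ (by omega), key _ (by omega)⟩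
  · rintro ⟨⟨b0, hb0, hy0, l0, hl0, e0, h0⟩, b1, hb1, hy1, l1, hl1, e1, h1⟩
    let l : ℕ → ℕ := fun v => if ∃ i, v / 2 ^ i = 2 * p then l0 v else
      if ∃ i, v / 2 ^ i = 2 * p + 1 then l1 v else a
    have hlp : l p = a := by
      have n0 : ¬ ∃ i, p / 2 ^ i = 2 * p := by
        rintro ⟨i, hi⟩
        have : p / 2 ^ i ≤ p := Nat.div_le_self _ _
        omega
      have n1 : ¬ ∃ i, p / 2 ^ i = 2 * p + 1 := by
        rintro ⟨i, hi⟩
        have : p / 2 ^ i ≤ p := Nat.div_le_self _ _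
        omega
      simp only [l, n0, n1, if_false]
    have hl0' : ∀ v, (∃ i, v / 2 ^ i = 2 * p) → l v = l0 v := by
      intro v hv
      simp only [l, hv, if_true]
    have hl1' : ∀ v, (∃ i, v / 2 ^ i = 2 * p + 1) → l v = l1 v := by
      rintro v ⟨i, hi⟩
      have n0 : ¬ ∃ i, v / 2 ^ i = 2 * p := by
        rintro ⟨i', hi'⟩
        exact level_ne hp hi hi'
      have n1 : ∃ i, v / 2 ^ i = 2 * p + 1 := ⟨i, hi⟩
      simp only [l, n0, n1, if_false, if_true]
    have key : ∀ (u b : ℕ) (lu : ℕ → ℕ), u / 2 = p → lu u = b → y (vr u b a) = true →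
        (∀ x, Desc u j x → y (vr x (lu x) (lu (x / 2))) = true) →
        (∀ v, (∃ i, v / 2 ^ i = u) → l v = lu v) → ∀ x i, 1 ≤ i → i ≤ j + 1 → x / 2 ^ (i - 1) = u →
        y (vr x (l x) (l (x / 2))) = true := by
      intro u b lu hu hub hy hd heq x i hi1 hi2 hx
      rw [heq x ⟨i - 1, hx⟩]
      rcases Nat.lt_or_ge 1 i with h | h
      · have e : x / 2 / 2 ^ (i - 2) = u := by
          rw [← hx]
          conv_rhs => rw [show i - 1 = 1 + (i - 2) by omega, div_pow_add, pow_one]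
        rw [heq (x / 2) ⟨i - 2, e⟩]
        exact hd x ⟨i - 1, by omega, by omega, hx⟩
      · obtain rfl : i = 1 := by omega
        simp only [Nat.sub_self, pow_zero, Nat.div_one] at hx
        subst hx
        rw [hu, hlp, hub]
        exact hy
    refine ⟨l, ?_, hlp, ?_⟩
    · intro v
      simp only [l]
      split_ifs
      · exact hl0 v
      · exact hl1 v
      · exact ha
    · rintro x ⟨i, hi1, hi2, hi3⟩
      have h2 : x / 2 ^ (i - 1) / 2 = p := by
        rw [← hi3]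
        conv_rhs => rw [show i = (i - 1) + 1 by omega, div_pow_succ]
      have h3 : x / 2 ^ (i - 1) = 2 * p ∨ x / 2 ^ (i - 1) = 2 * p + 1 := by omega
      rcases h3 with h3 | h3
      · exact key _ b0 l0 (by omega) e0 hy0 h0 hl0' x i hi1 hi2 h3
      · exact key _ b1 l1 (by omega) e1 hy1 h1 hl1' x i hi1 hi2 h3

lemma Qn_iff {j : ℕ} : ∀ {p a : ℕ}, 1 ≤ p → a < q → ∀ y : V → Bool,
    (Qn vr q j p a).1 y = true ↔ Qfun vr q j p a y := by
  induction j with
  | zero =>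
    intro p a hp ha y
    simp only [Qn, cst, true_iff]
    refine ⟨fun _ => a, fun _ => ha, rfl, ?_⟩
    rintro x ⟨i, h1, h2, _⟩
    omega
  | succ j ih =>
    intro p a hp ha y
    rw [Qfun_succ hp ha, Qn_succ]
    simp only [gand, Bool.and_eq_true, orN_iff, Pn, lit, Finset.mem_range]
    constructor
    · rintro ⟨⟨b, hb, h1, h2⟩, b', hb', h1', h2'⟩
      exact ⟨⟨b, hb, h1, (ih (by omega) hb y).1 h2⟩, b', hb', h1', (ih (by omega) hb' y).1 h2'⟩
    · rintro ⟨⟨b, hb, h1, h2⟩, b', hb', h1', h2'⟩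
      exact ⟨⟨b, hb, h1, (ih (by omega) hb y).2 h2⟩, b', hb', h1', (ih (by omega) hb' y).2 h2'⟩

lemma desc_one_iff {h x : ℕ} : Desc 1 h x ↔ 2 ≤ x ∧ x < 2 ^ (h + 1) := by
  constructor
  · intro hd
    exact ⟨hd.two_le le_rfl, hd.lt (by rw [pow_succ]; omega)⟩
  · rintro ⟨h1, h2⟩
    refine ⟨Nat.log 2 x, ?_, ?_, ?_⟩
    · exact Nat.log_pos (by norm_num) h1
    · have : Nat.log 2 x < h + 1 := Nat.log_lt_of_lt_pow (by omega) h2
      omega
    · have g1 : 2 ^ Nat.log 2 x ≤ x := Nat.pow_log_le_self 2 (by omega)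
      have g2 : x < 2 ^ (Nat.log 2 x + 1) := Nat.lt_pow_succ_log_self (by norm_num) x
      rw [pow_succ] at g2
      apply Nat.div_eq_of_lt_le
      · omega
      · omega

/-- the root -/
noncomputable def root (vr : ℕ → ℕ → ℕ → V) (q h : ℕ) : Node V :=
  orN (Qn vr q h 1) (Finset.range q)

lemma root_iff {h : ℕ} (y : V → Bool) : (root vr q h).1 y = true ↔ TreeFun vr (2 ^ (h + 1)) q y := by
  unfold root
  rw [orN_iff]
  constructor
  · rintro ⟨a, ha, h1⟩
    rw [Finset.mem_range] at ha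
    rw [Qn_iff le_rfl ha] at h1
    obtain ⟨l, hl, _, h2⟩ := h1
    exact ⟨l, hl, fun x hx hx' => h2 x (desc_one_iff.2 ⟨hx, hx'⟩)⟩
  · rintro ⟨l, hl, h2⟩
    refine ⟨l 1, Finset.mem_range.2 (hl 1), ?_⟩
    rw [Qn_iff le_rfl (hl 1)]
    exact ⟨l, hl, rfl, fun x hx => h2 x (desc_one_iff.1 hx).1 (desc_one_iff.1 hx).2⟩

/-- the variables of the edges below `p` -/
def VS (vr : ℕ → ℕ → ℕ → V) (q j p : ℕ) (v : V) : Prop :=
  ∃ x b c, Desc p j x ∧ b < q ∧ c < q ∧ v = vr x b c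

lemma VS.up {j p u : ℕ} (hu : u / 2 = p) {v : V} (h : VS vr q j u v) : VS vr q (j + 1) p v := by
  obtain ⟨x, b, c, h1, h2, h3, h4⟩ := h
  exact ⟨x, b, c, h1.up hu, h2, h3, h4⟩

lemma Qn_vars {j : ℕ} : ∀ {p a : ℕ}, a < q → ∀ v ∈ (Qn vr q j p a).2, VS vr q j p v := by
  induction j with
  | zero => intro p a _ v hv; simp [Qn, cst] at hv
  | succ j ih =>
    intro p a ha v hv
    rw [Qn_succ] at hv
    simp only [gand, Finset.mem_union, mem_orN, Pn, lit, Finset.mem_singleton, Finset.mem_range] at hv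
    have key : ∀ u, u / 2 = p → ∀ b < q, (v = vr u b a ∨ v ∈ (Qn vr q j u b).2) →
        VS vr q (j + 1) p v := by
      rintro u hu b hb (h | h)
      · exact ⟨u, b, a, ⟨1, le_rfl, by omega, by rw [pow_one]; exact hu⟩, hb, ha, h⟩
      · exact (ih hb v h).up hu
    rcases hv with ⟨b, hb, hv⟩ | ⟨b, hb, hv⟩
    · exact key (2 * p) (by omega) b hb hv
    · exact key (2 * p + 1) (by omega) b hb hv

lemma Pn_vars {j u a b : ℕ} (hb : b < q) {v : V} (hv : v ∈ (Pn vr q j u a b).2) :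
    v = vr u b a ∨ VS vr q j u v := by
  simp only [Pn, gand, lit, Finset.mem_union, Finset.mem_singleton] at hv
  rcases hv with h | h
  · exact Or.inl h
  · exact Or.inr (Qn_vars hb v h)

variable {M : ℕ}

/-- the AND of a literal and the node below it is decomposable -/
lemma disj_lit (hv : VarInj vr M q) {j u a b : ℕ} (hu : 1 ≤ u) (ha : a < q) (hb : b < q)
    (hM : (u + 1) * 2 ^ j ≤ M) : Disjoint (lit (vr u b a)).2 (Qn vr q j u b).2 := by
  rw [Finset.disjoint_left]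
  intro v h1 h2
  simp only [lit, Finset.mem_singleton] at h1
  subst h1
  obtain ⟨x, b', c', h3, h4, h5, h6⟩ := Qn_vars hb _ h2
  have hxM := h3.lt hM
  have huM : u < M := by
    have : 1 ≤ 2 ^ j := Nat.one_le_two_pow
    nlinarith
  obtain ⟨h7, _, _⟩ := hv _ _ _ _ _ _ huM hb ha hxM h4 h5 h6
  subst h7
  obtain ⟨i, i1, _, i3⟩ := h3
  have : u / 2 ^ i < u := Nat.div_lt_self (by omega) (Nat.one_lt_two_pow (by omega))
  omega

/-- the two subtrees have different variables -/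
lemma disj_sub (hv : VarInj vr M q) {j p a : ℕ} (hp : 1 ≤ p) (ha : a < q)
    (hM : (p + 1) * 2 ^ (j + 1) ≤ M) {B C : Finset ℕ} (hB : ∀ b ∈ B, b < q) (hC : ∀ b ∈ C, b < q) :
    Disjoint (orN (Pn vr q j (2 * p) a) B).2 (orN (Pn vr q j (2 * p + 1) a) C).2 := by
  rw [Finset.disjoint_left]
  intro v h1 h2
  rw [mem_orN] at h1 h2
  obtain ⟨b, hb, h1⟩ := h1
  obtain ⟨c, hc, h2⟩ := h2
  have key : ∀ u, u / 2 = p → ∀ b < q, v ∈ (Pn vr q j u a b).2 → ∃ x b' c', (∃ i, x / 2 ^ i = u) ∧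
      x < M ∧ b' < q ∧ c' < q ∧ v = vr x b' c' := by
    intro u hu b hb h
    have hle : (u + 1) * 2 ^ j ≤ M := by
      have h1 : u + 1 ≤ (p + 1) * 2 := by omega
      calc (u + 1) * 2 ^ j ≤ (p + 1) * 2 * 2 ^ j := Nat.mul_le_mul_right _ h1
        _ = (p + 1) * 2 ^ (j + 1) := by rw [pow_succ]; ring
        _ ≤ M := hM
    rcases Pn_vars hb h with h | ⟨x, b', c', h3, h4, h5, h6⟩
    · have huM : u < M := by
        have : 1 ≤ 2 ^ j := Nat.one_le_two_pow
        nlinarith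
      exact ⟨u, b, a, ⟨0, by simp⟩, huM, hb, ha, h⟩
    · refine ⟨x, b', c', ?_, h3.lt hle, h4, h5, h6⟩
      obtain ⟨i, _, _, i3⟩ := h3
      exact ⟨i, i3⟩
  obtain ⟨x, b1, c1, ⟨i, hi⟩, hx, hb1, hc1, e1⟩ := key (2 * p) (by omega) b (hB b hb) h1
  obtain ⟨x', b2, c2, ⟨i', hi'⟩, hx', hb2, hc2, e2⟩ := key (2 * p + 1) (by omega) c (hC c hc) h2
  obtain ⟨rfl, _, _⟩ := hv _ _ _ _ _ _ hx hb1 hc1 hx' hb2 hc2 (e1.symm.trans e2)
  exact level_ne hp hi' hi

end

end Pool.Agent.V7H37.SN
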