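import Pool.Agent.V7H37.SN.Tree

/-!
# Circuits of small depth for the tree function
-/

set_option autoImplicit false
set_option linter.unusedSectionVars false

namespace Pool.Agent.V7H37.SN

variable {V : Type} [DecidableEq V]

/-- `Gt n g`: the node `g` is a gate of depth `n` of the circuit -/
inductive Gt (vr : ℕ → ℕ → ℕ → V) (s h : ℕ) : ℕ → Node V → Prop
  | O (j u a r i : ℕ) (hj : j < h) (hu : 1 ≤ u) (hM : (u + 1) * 2 ^ j ≤ 2 ^ (h + 1)) (ha : a < 2 ^ s)
      (hr : r ≤ s) (hi : i < 2 ^ (s - r)) : Gt vr s h (j * (s + 2) + 1 + r)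
      (orN (Pn vr (2 ^ s) j u a) (Finset.Ico (i * 2 ^ r) ((i + 1) * 2 ^ r)))
  | Q (j p a : ℕ) (hj : j < h) (hp : 1 ≤ p) (hM : (p + 1) * 2 ^ (j + 1) ≤ 2 ^ (h + 1))
      (ha : a < 2 ^ s) : Gt vr s h ((j + 1) * (s + 2)) (Qn vr (2 ^ s) (j + 1) p a)
  | R (r i : ℕ) (hr : r < s) (hi : i < 2 ^ (s - (r + 1))) : Gt vr s h (h * (s + 2) + (r + 1))
      (orN (Qn vr (2 ^ s) h 1) (Finset.Ico (i * 2 ^ (r + 1)) ((i + 1) * 2 ^ (r + 1))))

lemma Ico_split (i r : ℕ) : Finset.Ico (i * 2 ^ (r + 1)) ((i + 1) * 2 ^ (r + 1)) =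
    Finset.Ico (2 * i * 2 ^ r) ((2 * i + 1) * 2 ^ r) ∪
      Finset.Ico ((2 * i + 1) * 2 ^ r) ((2 * i + 1 + 1) * 2 ^ r) := by
  rw [Finset.Ico_union_Ico_eq_Ico]
  · congr 1 <;> rw [pow_succ] <;> ring
  · exact Nat.mul_le_mul_right _ (by omega)
  · exact Nat.mul_le_mul_right _ (by omega)

lemma Ico_one (i : ℕ) : Finset.Ico (i * 2 ^ 0) ((i + 1) * 2 ^ 0) = {i} := by
  rw [pow_zero, mul_one, mul_one]
  ext x
  simp only [Finset.mem_Ico, Finset.mem_singleton]
  omega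

lemma Ico_all (s : ℕ) : Finset.Ico (0 * 2 ^ s) ((0 + 1) * 2 ^ s) = Finset.range (2 ^ s) := by
  rw [zero_mul, zero_add, one_mul, Finset.range_eq_Ico]

variable {vr : ℕ → ℕ → ℕ → V} {s h : ℕ}

lemma Q_or_input (hv : VarInj vr (2 ^ (h + 1)) (2 ^ s)) {j u b n : ℕ} (hj : j < h + 1) (hu : 1 ≤ u)
    (hM : (u + 1) * 2 ^ j ≤ 2 ^ (h + 1)) (hb : b < 2 ^ s) (hn : j * (s + 2) < n) :
    (∃ m < n, Gt vr s h m (Qn vr (2 ^ s) j u b)) ∨ IsInput (Qn vr (2 ^ s) j u b) := by
  cases j with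
  | zero => exact Or.inr (Or.inl ⟨true, rfl⟩)
  | succ j => exact Or.inl ⟨_, hn, Gt.Q j u b (by omega) hu hM hb⟩

lemma Gt.isGate (hv : VarInj vr (2 ^ (h + 1)) (2 ^ s)) {n : ℕ} {g : Node V} (hg : Gt vr s h n g) :
    n ≠ 0 ∧ IsGate True (fun a => (∃ m < n, Gt vr s h m a) ∨ IsInput a) g := by
  cases hg with
  | O j u a r i hj hu hM ha hr hi =>
    refine ⟨by omega, ?_⟩
    cases r with
    | zero =>
      have hi' : i < 2 ^ s := by simpa using hi
      rw [Ico_one, orN_singleton]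
      refine ⟨lit (vr u i a), Qn vr (2 ^ s) j u i, Or.inr (Or.inr ⟨_, Or.inl rfl⟩),
        Q_or_input hv (by omega) hu hM hi' (by omega), Or.inr (Or.inl ⟨rfl, fun _ => ?_⟩)⟩
      exact disj_lit hv hu ha hi' hM
    | succ r =>
      have h2 : 2 ^ (s - r) = 2 * 2 ^ (s - (r + 1)) := by
        rw [← pow_succ']
        congr 1
        omega
      rw [Ico_split, orN_union]
      refine ⟨_, _, Or.inl ⟨_, ?_, Gt.O j u a r (2 * i) hj hu hM ha (by omega) (by omega)⟩,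
        Or.inl ⟨_, ?_, Gt.O j u a r (2 * i + 1) hj hu hM ha (by omega) (by omega)⟩, Or.inl rfl⟩
      · omega
      · omega
  | Q j p a hj hp hM ha =>
    refine ⟨by positivity, ?_⟩
    rw [Qn_succ]
    have hM' : ∀ u, u / 2 = p → (u + 1) * 2 ^ j ≤ 2 ^ (h + 1) := by
      intro u hu
      have h1 : u + 1 ≤ (p + 1) * 2 := by omega
      calc (u + 1) * 2 ^ j ≤ (p + 1) * 2 * 2 ^ j := Nat.mul_le_mul_right _ h1
        _ = (p + 1) * 2 ^ (j + 1) := by rw [pow_succ]; ring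
        _ ≤ _ := hM
    have hlt : j * (s + 2) + 1 + s < (j + 1) * (s + 2) := by
      have : (j + 1) * (s + 2) = j * (s + 2) + (s + 2) := by ring
      omega
    refine ⟨_, _, Or.inl ⟨_, hlt, ?_⟩, Or.inl ⟨_, hlt, ?_⟩, Or.inr (Or.inl ⟨rfl, fun _ => ?_⟩)⟩
    · have := Gt.O (vr := vr) (s := s) (h := h) j (2 * p) a s 0 hj (by omega) (hM' _ (by omega)) ha
        le_rfl (by positivity)
      rwa [Ico_all] at this
    · have := Gt.O (vr := vr) (s := s) (h := h) j (2 * p + 1) a s 0 hj (by omega)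
        (hM' _ (by omega)) ha le_rfl (by positivity)
      rwa [Ico_all] at this
    · exact disj_sub hv hp ha hM (fun b hb => Finset.mem_range.1 hb) (fun b hb => Finset.mem_range.1 hb)
  | R r i hr hi =>
    refine ⟨by omega, ?_⟩
    rw [Ico_split, orN_union]
    have h2 : 2 ^ (s - r) = 2 * 2 ^ (s - (r + 1)) := by
      rw [← pow_succ']
      congr 1
      omega
    have key : ∀ i, i < 2 ^ (s - r) →
        ((∃ m < h * (s + 2) + (r + 1), Gt vr s h m (orN (Qn vr (2 ^ s) h 1)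
          (Finset.Ico (i * 2 ^ r) ((i + 1) * 2 ^ r)))) ∨
        IsInput (orN (Qn vr (2 ^ s) h 1) (Finset.Ico (i * 2 ^ r) ((i + 1) * 2 ^ r)))) := by
      intro i hi
      cases r with
      | zero =>
        rw [Ico_one, orN_singleton]
        apply Q_or_input hv (by omega) le_rfl
        · rw [pow_succ]; omega
        · simpa using hi
        · omega
      | succ r =>
        exact Or.inl ⟨_, by omega, Gt.R r i (by omega) hi⟩
    exact ⟨_, _, key (2 * i) (by omega), key (2 * i + 1) (by omega), Or.inl rfl⟩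

open Classical in
/-- all gates -/
noncomputable def allGates (vr : ℕ → ℕ → ℕ → V) (s h : ℕ) : Finset (Node V) :=
  ((Finset.range h ×ˢ Finset.range (2 ^ (h + 1)) ×ˢ Finset.range (2 ^ s) ×ˢ Finset.range (s + 1) ×ˢ
    Finset.range (2 ^ s)).image (fun t => orN (Pn vr (2 ^ s) t.1 t.2.1 t.2.2.1)
      (Finset.Ico (t.2.2.2.2 * 2 ^ t.2.2.2.1) ((t.2.2.2.2 + 1) * 2 ^ t.2.2.2.1)))) ∪
  ((Finset.range h ×ˢ Finset.range (2 ^ (h + 1)) ×ˢ Finset.range (2 ^ s)).image
    (fun t => Qn vr (2 ^ s) (t.1 + 1) t.2.1 t.2.2)) ∪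
  ((Finset.range s ×ˢ Finset.range (2 ^ s)).image (fun t => orN (Qn vr (2 ^ s) h 1)
      (Finset.Ico (t.2 * 2 ^ (t.1 + 1)) ((t.2 + 1) * 2 ^ (t.1 + 1)))))

lemma allGates_card : (allGates vr s h).card ≤
    h * (2 ^ (h + 1) * (2 ^ s * ((s + 1) * 2 ^ s))) + h * (2 ^ (h + 1) * 2 ^ s) + s * 2 ^ s := by
  classical
  unfold allGates
  refine (Finset.card_union_le _ _).trans (Nat.add_le_add ((Finset.card_union_le _ _).trans
    (Nat.add_le_add ?_ ?_)) ?_)
  · refine Finset.card_image_le.trans ?_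
    simp [Finset.card_product]
  · refine Finset.card_image_le.trans ?_
    simp [Finset.card_product]
  · refine Finset.card_image_le.trans ?_
    simp [Finset.card_product]

lemma mem_allGates {n : ℕ} {g : Node V} (hg : Gt vr s h n g) : g ∈ allGates vr s h := by
  classical
  have hle : ∀ r, 2 ^ (s - r) ≤ 2 ^ s := fun r => Nat.pow_le_pow_right (by norm_num) (by omega)
  have hlt : ∀ u d : ℕ, (u + 1) * 2 ^ d ≤ 2 ^ (h + 1) → u < 2 ^ (h + 1) := by
    intro u d h1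
    have : 1 ≤ 2 ^ d := Nat.one_le_two_pow
    nlinarith
  unfold allGates
  rw [Finset.mem_union, Finset.mem_union]
  cases hg with
  | O j u a r i hj hu hM ha hr hi =>
    refine Or.inl (Or.inl (Finset.mem_image.2 ⟨(j, u, a, r, i), ?_, rfl⟩))
    simp only [Finset.mem_product, Finset.mem_range]
    exact ⟨hj, hlt u j hM, ha, by omega, lt_of_lt_of_le hi (hle r)⟩
  | Q j p a hj hp hM ha =>
    refine Or.inl (Or.inr (Finset.mem_image.2 ⟨(j, p, a), ?_, rfl⟩))
    simp only [Finset.mem_product, Finset.mem_range]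
    exact ⟨hj, hlt p _ hM, ha⟩
  | R r i hr hi =>
    refine Or.inr (Finset.mem_image.2 ⟨(r, i), ?_, rfl⟩)
    simp only [Finset.mem_product, Finset.mem_range]
    exact ⟨hr, lt_of_lt_of_le hi (hle _)⟩

/-- **A circuit of small depth.** -/
theorem upper_depth (hv : VarInj vr (2 ^ (h + 1)) (2 ^ s)) (hs : 1 ≤ s) :
    HasCircuit True (h * (2 ^ (h + 1) * (2 ^ s * ((s + 1) * 2 ^ s))) + h * (2 ^ (h + 1) * 2 ^ s) +
      s * 2 ^ s) (h * (s + 2) + s) (root vr (2 ^ s) h).1 := by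
  classical
  refine ⟨fun n => (allGates vr s h).filter (fun g => Gt vr s h n g), allGates vr s h, ?_, ?_, ?_,
    allGates_card, ?_⟩
  · ext g
    simp only [Finset.mem_filter, Finset.notMem_empty, iff_false, not_and]
    intro _ hg
    exact (hg.isGate hv).1 rfl
  · intro i g hg
    rw [Finset.mem_filter] at hg
    obtain ⟨a, b, ha, hb, hh⟩ := (hg.2.isGate hv).2
    have key : ∀ a, ((∃ m < i + 1, Gt vr s h m a) ∨ IsInput a) → ((∃ j ≤ i, a ∈
        (allGates vr s h).filter (fun g => Gt vr s h j g)) ∨ IsInput a) := by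
      rintro a (⟨m, hm, h1⟩ | h1)
      · exact Or.inl ⟨m, by omega, Finset.mem_filter.2 ⟨mem_allGates h1, h1⟩⟩
      · exact Or.inr h1
    exact ⟨a, b, key a ha, key b hb, hh⟩
  · intro i _
    exact Finset.filter_subset _ _
  · refine ⟨h * (s + 2) + s, le_rfl, (root vr (2 ^ s) h).2, ?_⟩
    rw [Finset.mem_filter]
    have hroot : Gt vr s h (h * (s + 2) + s) (root vr (2 ^ s) h) := by
      obtain ⟨r, rfl⟩ := Nat.exists_eq_add_of_le' hs
      have := Gt.R (vr := vr) (s := r + 1) (h := h) r 0 (by omega) (by positivity)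
      rwa [Ico_all] at this
    exact ⟨mem_allGates hroot, hroot⟩

end Pool.Agent.V7H37.SN
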